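import Pool.Agent.H807R2.Dav1
import Pool.Agent.Helper112.LS
import Pool.Agent.Y816.PD.Orth

/-!
Mean square in all residue classes to all moduli `d ≤ Q` for a function with small exponential sums:
large sieve for the large reduced denominators, the bound for the exponential sum for the small ones.
-/

set_option autoImplicit false

namespace Pool.Agent.U325.PB

open Finset
open Pool.Agent.H807R2.Dav (ee ee_add norm_ee)

/-- the exponential sum -/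
noncomputable def G (f : ℕ → ℝ) (Y : ℕ) (β : ℝ) : ℂ := ∑ l ∈ Icc 1 Y, (f l : ℂ) * ee ((l : ℝ) * β)

/-- the sum over the reduced fractions with denominator `q` -/
noncomputable def frac (f : ℕ → ℝ) (Y : ℕ) (β : ℝ) (q : ℕ) : ℝ :=
  ∑ c ∈ (range q).filter (fun c => c.Coprime q), ‖G f Y (β + (c : ℝ) / q)‖ ^ 2

lemma frac_nonneg (f : ℕ → ℝ) (Y : ℕ) (β : ℝ) (q : ℕ) : 0 ≤ frac f Y β q := sum_nonneg fun _ _ => by positivity

lemma ls_shift (f : ℕ → ℝ) (hf : ∀ n, |f n| ≤ 1) (Y F : ℕ) (β : ℝ) :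
    ∑ q ∈ Icc 1 F, frac f Y β q ≤ 6 * (Y + (F : ℝ) ^ 2) * Y := by
  have h := Pool.Agent.Helper112.additive_large_sieve Y F (fun n => (f n : ℂ) * ee ((n : ℝ) * β))
  have h1 : ∑ n ∈ Icc 1 Y, ‖(f n : ℂ) * ee ((n : ℝ) * β)‖ ^ 2 ≤ (Y : ℝ) := by
    calc ∑ n ∈ Icc 1 Y, ‖(f n : ℂ) * ee ((n : ℝ) * β)‖ ^ 2 ≤ ∑ n ∈ Icc 1 Y, (1 : ℝ) := by
          refine sum_le_sum fun n _ => ?_
          rw [norm_mul, norm_ee, mul_one, Complex.norm_real, Real.norm_eq_abs]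
          exact pow_le_one₀ (abs_nonneg _) (hf n)
      _ = Y := by simp
  have h2 : ∑ q ∈ Icc 1 F, frac f Y β q = ∑ q ∈ Icc 1 F, ∑ c ∈ (range q).filter (fun c => c.Coprime q),
      ‖∑ n ∈ Icc 1 Y, (f n : ℂ) * ee ((n : ℝ) * β) * Pool.Agent.Helper112.ee ((n : ℝ) * c / q)‖ ^ 2 := by
    refine sum_congr rfl fun q _ => ?_
    unfold frac
    refine sum_congr rfl fun c _ => ?_
    congr 2
    unfold G
    refine sum_congr rfl fun n _ => ?_
    have e1 : Pool.Agent.Helper112.ee ((n : ℝ) * c / q) = ee ((n : ℝ) * ((c : ℝ) / q)) := by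
      unfold Pool.Agent.Helper112.ee ee
      congr 1
      push_cast
      ring
    rw [e1, mul_add, ee_add]
    ring
  rw [h2]
  refine h.trans ?_
  exact mul_le_mul_of_nonneg_left h1 (by positivity)

lemma triv_shift (f : ℕ → ℝ) (Y F : ℕ) (β η : ℝ) (hη : ∀ γ : ℝ, ‖G f Y γ‖ ≤ η) :
    ∑ q ∈ Icc 1 F, frac f Y β q ≤ (F : ℝ) ^ 2 * η ^ 2 := by
  have h1 : ∀ q ∈ Icc 1 F, frac f Y β q ≤ F * η ^ 2 := by
    intro q hq
    rw [mem_Icc] at hq
    unfold frac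
    calc ∑ c ∈ (range q).filter (fun c => c.Coprime q), ‖G f Y (β + (c : ℝ) / q)‖ ^ 2
        ≤ ∑ c ∈ (range q).filter (fun c => c.Coprime q), η ^ 2 :=
          sum_le_sum fun c _ => pow_le_pow_left₀ (norm_nonneg _) (hη _) 2
      _ = (((range q).filter (fun c => c.Coprime q)).card : ℝ) * η ^ 2 := by rw [sum_const, nsmul_eq_mul]
      _ ≤ F * η ^ 2 := by
          refine mul_le_mul_of_nonneg_right ?_ (sq_nonneg _)
          have := card_filter_le (range q) (fun c => c.Coprime q)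
          rw [card_range] at this
          exact_mod_cast this.trans hq.2
  calc ∑ q ∈ Icc 1 F, frac f Y β q ≤ ∑ q ∈ Icc 1 F, (F : ℝ) * η ^ 2 := sum_le_sum h1
    _ = (F : ℝ) ^ 2 * η ^ 2 := by rw [sum_const, Nat.card_Icc, nsmul_eq_mul]; push_cast; ring

/-- partial summation -/
lemma abel (s : ℕ → ℝ) (Q : ℕ) : ∑ q ∈ Icc 1 Q, s q / q =
    (∑ q ∈ Icc 1 Q, s q) / (Q + 1) + ∑ F ∈ Icc 1 Q, (∑ q ∈ Icc 1 F, s q) / (F * (F + 1)) := by
  induction Q with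
  | zero => simp
  | succ Q ih =>
    rw [sum_Icc_succ_top (by omega), ih, sum_Icc_succ_top (by omega) (fun q => s q),
      sum_Icc_succ_top (by omega) (fun F => (∑ q ∈ Icc 1 F, s q) / ((F : ℝ) * (F + 1))),
      sum_Icc_succ_top (by omega) (fun q => s q)]
    have h1 : ((Q : ℝ) + 1) ≠ 0 := by positivity
    have h2 : ((Q : ℝ) + 1 + 1) ≠ 0 := by positivity
    push_cast
    field_simp
    ring

lemma tele (q₀ Q : ℕ) : ∑ F ∈ Icc 1 Q, (if q₀ < F then 1 / ((F : ℝ) * (F + 1)) else 0) ≤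
    1 / ((q₀ : ℝ) + 1) - min (1 / ((q₀ : ℝ) + 1)) (1 / ((Q : ℝ) + 1)) := by
  induction Q with
  | zero =>
    simp only [Nat.cast_zero, zero_add]
    rw [Icc_eq_empty_of_lt (by norm_num), sum_empty]
    have : min (1 / ((q₀ : ℝ) + 1)) (1 / 1) ≤ 1 / ((q₀ : ℝ) + 1) := min_le_left _ _
    linarith
  | succ Q ih =>
    rw [sum_Icc_succ_top (by omega)]
    have hq : (0 : ℝ) < (q₀ : ℝ) + 1 := by positivity
    have hQ : (0 : ℝ) < (Q : ℝ) + 1 := by positivity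
    push_cast
    by_cases h : q₀ < Q + 1
    · rw [if_pos h]
      have h1 : (q₀ : ℝ) ≤ Q := by exact_mod_cast Nat.lt_succ_iff.1 h
      have e1 : min (1 / ((q₀ : ℝ) + 1)) (1 / ((Q : ℝ) + 1)) = 1 / ((Q : ℝ) + 1) :=
        min_eq_right (one_div_le_one_div_of_le hq (by linarith))
      have e2 : min (1 / ((q₀ : ℝ) + 1)) (1 / ((Q : ℝ) + 1 + 1)) = 1 / ((Q : ℝ) + 1 + 1) :=
        min_eq_right (one_div_le_one_div_of_le hq (by linarith))
      rw [e1] at ih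
      rw [e2]
      have e3 : 1 / (((Q : ℝ) + 1) * ((Q : ℝ) + 1 + 1)) = 1 / ((Q : ℝ) + 1) - 1 / ((Q : ℝ) + 1 + 1) := by
        field_simp
        ring
      rw [e3]
      linarith
    · rw [if_neg h]
      have h1 : (Q : ℝ) + 1 ≤ q₀ := by exact_mod_cast Nat.not_lt.1 h
      have e1 : min (1 / ((q₀ : ℝ) + 1)) (1 / ((Q : ℝ) + 1)) = 1 / ((q₀ : ℝ) + 1) :=
        min_eq_left (one_div_le_one_div_of_le hQ (by linarith))
      have e2 : min (1 / ((q₀ : ℝ) + 1)) (1 / ((Q : ℝ) + 1 + 1)) = 1 / ((q₀ : ℝ) + 1) :=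
        min_eq_left (one_div_le_one_div_of_le (by linarith) (by linarith))
      rw [e1] at ih
      rw [e2]
      linarith

lemma frac_sum (f : ℕ → ℝ) (hf : ∀ n, |f n| ≤ 1) (Y Q q₀ : ℕ) (β η : ℝ) (hη : ∀ γ : ℝ, ‖G f Y γ‖ ≤ η) :
    ∑ q ∈ Icc 1 Q, frac f Y β q / q ≤ 2 * q₀ * η ^ 2 + 12 * (Y : ℝ) ^ 2 / (q₀ + 1) + 12 * Y * Q := by
  set S : ℕ → ℝ := fun F => ∑ q ∈ Icc 1 F, frac f Y β q with hS
  have hS0 : ∀ F, 0 ≤ S F := fun F => sum_nonneg fun q _ => frac_nonneg f Y β q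
  have hY0 : (0 : ℝ) ≤ Y := Nat.cast_nonneg Y
  have hq0 : (0 : ℝ) ≤ q₀ := Nat.cast_nonneg q₀
  have b1 : ∀ F : ℕ, S F ≤ 6 * (Y + (F : ℝ) ^ 2) * Y := fun F => ls_shift f hf Y F β
  have b2 : ∀ F : ℕ, S F ≤ (F : ℝ) ^ 2 * η ^ 2 := fun F => triv_shift f Y F β η hη
  rw [abel]
  have h1 : S Q / (Q + 1) ≤ q₀ * η ^ 2 + 6 * (Y : ℝ) ^ 2 / (q₀ + 1) + 6 * Y * Q := by
    have hQ : (0 : ℝ) < (Q : ℝ) + 1 := by positivity
    rcases Nat.lt_or_ge q₀ Q with h | h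
    · have h2 : (q₀ : ℝ) ≤ Q := by exact_mod_cast h.le
      calc S Q / (Q + 1) ≤ (6 * (Y + (Q : ℝ) ^ 2) * Y) / (Q + 1) := div_le_div_of_nonneg_right (b1 Q) hQ.le
        _ = 6 * (Y : ℝ) ^ 2 / (Q + 1) + 6 * Y * (Q ^ 2 / (Q + 1)) := by field_simp
        _ ≤ 6 * (Y : ℝ) ^ 2 / (q₀ + 1) + 6 * Y * Q := by
            refine add_le_add (div_le_div_of_nonneg_left (by positivity) (by positivity) (by linarith)) ?_
            refine mul_le_mul_of_nonneg_left ?_ (by positivity)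
            rw [div_le_iff₀ hQ]
            nlinarith [(Nat.cast_nonneg Q : (0:ℝ) ≤ Q)]
        _ ≤ _ := by have : 0 ≤ (q₀ : ℝ) * η ^ 2 := by positivity
                    linarith
    · have h2 : (Q : ℝ) ≤ q₀ := by exact_mod_cast h
      calc S Q / (Q + 1) ≤ ((Q : ℝ) ^ 2 * η ^ 2) / (Q + 1) := div_le_div_of_nonneg_right (b2 Q) hQ.le
        _ = (Q ^ 2 / (Q + 1)) * η ^ 2 := by ring
        _ ≤ q₀ * η ^ 2 := by
            refine mul_le_mul_of_nonneg_right ?_ (sq_nonneg _)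
            rw [div_le_iff₀ hQ]
            nlinarith [(Nat.cast_nonneg Q : (0:ℝ) ≤ Q)]
        _ ≤ _ := by have : 0 ≤ 6 * (Y : ℝ) ^ 2 / (q₀ + 1) := by positivity
                    have : 0 ≤ 6 * (Y : ℝ) * Q := by positivity
                    linarith
  have h2 : ∑ F ∈ Icc 1 Q, S F / (F * (F + 1)) ≤ q₀ * η ^ 2 + 6 * (Y : ℝ) ^ 2 / (q₀ + 1) + 6 * Y * Q := by
    have h3 : ∀ F ∈ Icc 1 Q, S F / (F * (F + 1)) ≤ (if F ≤ q₀ then η ^ 2 else 0) +
        6 * (Y : ℝ) ^ 2 * (if q₀ < F then 1 / ((F : ℝ) * (F + 1)) else 0) + 6 * Y := by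
      intro F hF
      rw [mem_Icc] at hF
      have hFr : (1 : ℝ) ≤ F := by exact_mod_cast hF.1
      have hF2 : (0 : ℝ) < (F : ℝ) * (F + 1) := by positivity
      rcases Nat.lt_or_ge q₀ F with h | h
      · rw [if_neg (by omega), if_pos h]
        calc S F / (F * (F + 1)) ≤ (6 * (Y + (F : ℝ) ^ 2) * Y) / (F * (F + 1)) := div_le_div_of_nonneg_right (b1 F) hF2.le
          _ = 6 * (Y : ℝ) ^ 2 * (1 / (F * (F + 1))) + 6 * Y * (F ^ 2 / (F * (F + 1))) := by field_simp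
          _ ≤ 6 * (Y : ℝ) ^ 2 * (1 / (F * (F + 1))) + 6 * Y * 1 := by
              refine add_le_add le_rfl (mul_le_mul_of_nonneg_left ?_ (by positivity))
              rw [div_le_one hF2]
              nlinarith
          _ = _ := by ring
      · rw [if_pos h, if_neg (by omega)]
        calc S F / (F * (F + 1)) ≤ ((F : ℝ) ^ 2 * η ^ 2) / (F * (F + 1)) := div_le_div_of_nonneg_right (b2 F) hF2.le
          _ = (F ^ 2 / (F * (F + 1))) * η ^ 2 := by ring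
          _ ≤ 1 * η ^ 2 := by
              refine mul_le_mul_of_nonneg_right ?_ (sq_nonneg _)
              rw [div_le_one hF2]
              nlinarith
          _ ≤ _ := by linarith
    refine (sum_le_sum h3).trans ?_
    rw [sum_add_distrib, sum_add_distrib, ← mul_sum]
    have h4 : ∑ F ∈ Icc 1 Q, (if F ≤ q₀ then η ^ 2 else 0) ≤ q₀ * η ^ 2 := by
      rw [← sum_filter, sum_const, nsmul_eq_mul]
      refine mul_le_mul_of_nonneg_right ?_ (sq_nonneg _)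
      have : ((Icc 1 Q).filter (fun F => F ≤ q₀)).card ≤ (Icc 1 q₀).card :=
        card_le_card fun F hF => by rw [mem_filter, mem_Icc] at hF; rw [mem_Icc]; omega
      rw [Nat.card_Icc] at this
      exact_mod_cast this.trans (by omega)
    have h5 : 6 * (Y : ℝ) ^ 2 * ∑ F ∈ Icc 1 Q, (if q₀ < F then 1 / ((F : ℝ) * (F + 1)) else 0) ≤ 6 * (Y : ℝ) ^ 2 / (q₀ + 1) := by
      have e1 := tele q₀ Q
      have e2 : 0 ≤ min (1 / ((q₀ : ℝ) + 1)) (1 / ((Q : ℝ) + 1)) := by positivity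
      calc _ ≤ 6 * (Y : ℝ) ^ 2 * (1 / ((q₀ : ℝ) + 1)) := mul_le_mul_of_nonneg_left (by linarith) (by positivity)
        _ = _ := by ring
    have h6 : ∑ _F ∈ Icc 1 Q, 6 * (Y : ℝ) = 6 * Y * Q := by
      rw [sum_const, Nat.card_Icc, nsmul_eq_mul]; push_cast; ring
    rw [h6]
    linarith
  have h7 : 2 * (q₀ : ℝ) * η ^ 2 + 12 * (Y : ℝ) ^ 2 / (q₀ + 1) + 12 * Y * Q =
      (q₀ * η ^ 2 + 6 * (Y : ℝ) ^ 2 / (q₀ + 1) + 6 * Y * Q) + (q₀ * η ^ 2 + 6 * (Y : ℝ) ^ 2 / (q₀ + 1) + 6 * Y * Q) := by ring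
  rw [h7]
  exact add_le_add h1 h2

/-- the mean over the shifts by the fractions with denominator `d` -/
noncomputable def W (f : ℕ → ℝ) (Y d : ℕ) (β : ℝ) : ℝ := (∑ b ∈ range d, ‖G f Y (β + (b : ℝ) / d)‖ ^ 2) / d

lemma W_nonneg (f : ℕ → ℝ) (Y d : ℕ) (β : ℝ) : 0 ≤ W f Y d β := by unfold W; positivity

lemma mult_sum (q Q : ℕ) (hq : 1 ≤ q) : ∑ d ∈ Icc 1 Q, (if q ∣ d then 1 / (d : ℝ) else 0) ≤ (1 + Real.log Q) / q := by
  have h1 : ∑ d ∈ Icc 1 Q, (if q ∣ d then 1 / (d : ℝ) else 0) = ∑ k ∈ Icc 1 (Q / q), 1 / ((q : ℝ) * k) := by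
    rw [← sum_filter]
    symm
    refine sum_bij' (fun k _ => q * k) (fun n _ => n / q) ?_ ?_ ?_ ?_ ?_
    · intro m hm
      rw [mem_Icc] at hm
      rw [mem_filter, mem_Icc]
      refine ⟨⟨Nat.one_le_iff_ne_zero.mpr (Nat.mul_ne_zero (by omega) (by omega)), ?_⟩, Dvd.intro _ rfl⟩
      calc q * m ≤ q * (Q / q) := Nat.mul_le_mul_left _ hm.2
        _ ≤ Q := Nat.mul_div_le _ _
    · intro n hn
      rw [mem_filter, mem_Icc] at hn
      obtain ⟨⟨h1, h2⟩, c, hc⟩ := hn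
      rw [mem_Icc]
      refine ⟨?_, Nat.div_le_div_right h2⟩
      rw [hc, Nat.mul_div_cancel_left _ (by omega)]
      rcases Nat.eq_zero_or_pos c with h | h
      · rw [h, mul_zero] at hc; omega
      · exact h
    · intro m _
      exact Nat.mul_div_cancel_left _ (by omega)
    · intro n hn
      rw [mem_filter] at hn
      exact Nat.mul_div_cancel' hn.2
    · intro m _
      push_cast; ring
  have hqr : (0 : ℝ) < q := by exact_mod_cast hq
  have h2 : ∑ k ∈ Icc 1 (Q / q), 1 / ((q : ℝ) * k) = (∑ k ∈ Icc 1 (Q / q), 1 / (k : ℝ)) / q := by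
    rw [sum_div]
    exact sum_congr rfl fun k _ => by rw [one_div, mul_inv, one_div, div_eq_mul_inv, mul_comm]
  have h3 : ∑ k ∈ Icc 1 (Q / q), 1 / (k : ℝ) ≤ 1 + Real.log Q := by
    calc ∑ k ∈ Icc 1 (Q / q), 1 / (k : ℝ) ≤ ∑ k ∈ Icc 1 Q, 1 / (k : ℝ) :=
          sum_le_sum_of_subset_of_nonneg (Icc_subset_Icc_right (Nat.div_le_self _ _)) fun _ _ _ => by positivity
      _ ≤ 1 + Real.log Q := by
          have h := harmonic_le_one_add_log Q
          refine le_trans (le_of_eq ?_) h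
          rw [harmonic_eq_sum_Icc]
          push_cast
          exact sum_congr rfl fun _ _ => by rw [one_div]
  rw [h1, h2]
  exact div_le_div_of_nonneg_right h3 hqr.le

/-- **The mean square over all moduli.** -/
theorem bdh (f : ℕ → ℝ) (hf : ∀ n, |f n| ≤ 1) (Y Q q₀ : ℕ) (β η : ℝ) (hη : ∀ γ : ℝ, ‖G f Y γ‖ ≤ η) :
    ∑ d ∈ Icc 1 Q, W f Y d β ≤
      (1 + Real.log Q) * (2 * q₀ * η ^ 2 + 12 * (Y : ℝ) ^ 2 / (q₀ + 1) + 12 * Y * Q) := by
  have h1 : ∀ d ∈ Icc 1 Q, W f Y d β = ∑ q ∈ Icc 1 Q, frac f Y β q * (if q ∣ d then 1 / (d : ℝ) else 0) := by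
    intro d hd
    rw [mem_Icc] at hd
    unfold W
    rw [Pool.Agent.Y816.PD.sum_frac d (by omega) (fun x => ‖G f Y (β + x)‖ ^ 2), sum_div]
    have e1 : ∀ q ∈ Icc 1 Q, frac f Y β q * (if q ∣ d then 1 / (d : ℝ) else 0) =
        if q ∣ d then frac f Y β q / d else 0 := by
      intro q _
      split_ifs
      · ring
      · ring
    rw [sum_congr rfl e1, ← sum_filter]
    refine sum_congr ?_ fun q _ => rfl
    ext q
    rw [Nat.mem_divisors, mem_filter, mem_Icc]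
    constructor
    · rintro ⟨a1, a2⟩
      exact ⟨⟨Nat.pos_of_dvd_of_pos a1 (by omega), (Nat.le_of_dvd (by omega) a1).trans hd.2⟩, a1⟩
    · rintro ⟨_, a1⟩
      exact ⟨a1, by omega⟩
  rw [sum_congr rfl h1, sum_comm]
  rcases Nat.eq_zero_or_pos Q with hQ | hQ
  · subst hQ
    rw [Icc_eq_empty_of_lt (by norm_num), sum_empty]
    simp only [Nat.cast_zero, Real.log_zero, add_zero, one_mul, mul_zero]
    positivity
  have hlog : 0 ≤ Real.log Q := Real.log_nonneg (by exact_mod_cast hQ)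
  calc ∑ q ∈ Icc 1 Q, ∑ d ∈ Icc 1 Q, frac f Y β q * (if q ∣ d then 1 / (d : ℝ) else 0)
      ≤ ∑ q ∈ Icc 1 Q, (1 + Real.log Q) * (frac f Y β q / q) := by
        refine sum_le_sum fun q hq => ?_
        rw [mem_Icc] at hq
        rw [← mul_sum]
        calc frac f Y β q * ∑ d ∈ Icc 1 Q, (if q ∣ d then 1 / (d : ℝ) else 0)
            ≤ frac f Y β q * ((1 + Real.log Q) / q) := mul_le_mul_of_nonneg_left (mult_sum q Q hq.1) (frac_nonneg f Y β q)
          _ = _ := by ring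
    _ = (1 + Real.log Q) * ∑ q ∈ Icc 1 Q, frac f Y β q / q := by rw [mul_sum]
    _ ≤ _ := mul_le_mul_of_nonneg_left (frac_sum f hf Y Q q₀ β η hη) (by linarith)

end Pool.Agent.U325.PB
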