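import Pool.Agent.U325.PB.Two

/-!
Two-dimensional sieve functions times fixed functions do not see the parity of the number of prime
factors on almost all lines `m + n = N`.
-/

set_option autoImplicit false

namespace Pool.Agent.U325.PB

open Finset Filter Topology

/-- the largest integer of the level -/
noncomputable def top (δ : ℝ) (X : ℕ) : ℕ := ⌊(X : ℝ) * Real.exp (-(Real.log X) ^ δ)⌋₊

lemma ev_exp (δ : ℝ) (hδ : 0 < δ) (U : ℕ) (B : ℝ) : ∃ X₀ : ℕ, ∀ X : ℕ, X₀ ≤ X →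
    1 ≤ X ∧ 1 ≤ Real.log X ∧ B ≤ Real.log X ∧ Real.log X ^ U ≤ Real.exp ((Real.log X) ^ δ) := by
  obtain ⟨U', hU'⟩ := exists_nat_ge ((U + 1) / δ)
  have hlog : Tendsto (fun X : ℕ => Real.log X) atTop atTop := Real.tendsto_log_atTop.comp tendsto_natCast_atTop_atTop
  have hev : ∀ᶠ X : ℕ in atTop, 1 ≤ X ∧ 1 ≤ Real.log X ∧ B ≤ Real.log X ∧ (U'.factorial : ℝ) ≤ Real.log X := by
    filter_upwards [eventually_ge_atTop 1, hlog.eventually_ge_atTop 1, hlog.eventually_ge_atTop B,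
      hlog.eventually_ge_atTop (U'.factorial : ℝ)] with X h1 h2 h3 h4
    exact ⟨h1, h2, h3, h4⟩
  obtain ⟨X₀, hX₀⟩ := eventually_atTop.1 hev
  refine ⟨X₀, fun X hX => ?_⟩
  obtain ⟨h1, h2, h3, h4⟩ := hX₀ X hX
  refine ⟨h1, h2, h3, ?_⟩
  set L := Real.log X
  have hL0 : 0 < L := by linarith
  have h5 : L ^ (U + 1) ≤ (L ^ δ) ^ U' := by
    rw [← Real.rpow_natCast (L ^ δ) U', ← Real.rpow_mul hL0.le, ← Real.rpow_natCast L (U + 1)]
    refine Real.rpow_le_rpow_of_exponent_le h2 ?_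
    rw [div_le_iff₀ hδ] at hU'
    push_cast
    linarith
  have h6 : (L ^ δ) ^ U' / (U'.factorial : ℝ) ≤ Real.exp (L ^ δ) := Real.pow_div_factorial_le_exp _ (by positivity) _
  have hf : (0 : ℝ) < (U'.factorial : ℝ) := by exact_mod_cast Nat.factorial_pos U'
  rw [div_le_iff₀ hf] at h6
  have h7 : L ^ U * L ≤ Real.exp (L ^ δ) * L := by
    calc L ^ U * L = L ^ (U + 1) := by ring
      _ ≤ (L ^ δ) ^ U' := h5
      _ ≤ Real.exp (L ^ δ) * (U'.factorial : ℝ) := h6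
      _ ≤ Real.exp (L ^ δ) * L := mul_le_mul_of_nonneg_left h4 (Real.exp_pos _).le
  exact le_of_mul_le_mul_right h7 hL0

/-- the bound of the mean square over all moduli `≤ Z / e`, for `Y = X / e` -/
lemma W_bound (δ : ℝ) (hδ : 0 < δ) (U : ℕ) : ∃ X₀ : ℕ, ∀ X : ℕ, X₀ ≤ X → ∀ e : ℕ, 1 ≤ e → e ≤ top δ X → ∀ γ : ℝ,
    ∑ d ∈ Icc 1 (top δ X / e), W lam (X / e) d γ ≤ (1 + Real.log X) * (26 * ((X : ℝ) / e) ^ 2 / Real.log X ^ U) := by
  obtain ⟨X₁, h1⟩ := sup_mult δ hδ U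
  obtain ⟨X₂, h2⟩ := ev_exp δ hδ U 1
  refine ⟨max X₁ X₂, fun X hX e he heZ γ => ?_⟩
  obtain ⟨hX1, hL1, -, hexp⟩ := h2 X ((le_max_right _ _).trans hX)
  set L := Real.log X with hL
  set Z := top δ X with hZ
  have hL0 : 0 < L := by linarith
  have hXr : (0 : ℝ) < X := by exact_mod_cast hX1
  have her : (0 : ℝ) < e := by exact_mod_cast he
  have hLU : 0 < L ^ U := by positivity
  have hZr : (Z : ℝ) ≤ X * Real.exp (-L ^ δ) := Nat.floor_le (by positivity)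
  have hZX : (Z : ℝ) ≤ X / L ^ U := by
    refine hZr.trans ?_
    rw [Real.exp_neg, div_eq_mul_inv]
    exact mul_le_mul_of_nonneg_left (inv_anti₀ hLU hexp) hXr.le
  have hη : ∀ γ' : ℝ, ‖G lam (X / e) γ'‖ ≤ (X : ℝ) / e / L ^ U := by
    intro γ'
    have e1 : (e : ℝ) * (γ' / e) = γ' := by field_simp
    rw [← e1, ← G_vE e X he]
    exact h1 X ((le_max_left _ _).trans hX) e he ((by exact_mod_cast heZ : (e : ℝ) ≤ Z).trans hZr) (γ' / e)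
  set q₀ : ℕ := ⌊L ^ U⌋₊ with hq₀
  have hq1 : (q₀ : ℝ) ≤ L ^ U := Nat.floor_le hLU.le
  have hq2 : L ^ U ≤ (q₀ : ℝ) + 1 := (Nat.lt_floor_add_one _).le
  have hY : ((X / e : ℕ) : ℝ) ≤ (X : ℝ) / e := Nat.cast_div_le
  have hQ : ((Z / e : ℕ) : ℝ) ≤ (Z : ℝ) / e := Nat.cast_div_le
  have hY0 : (0 : ℝ) ≤ ((X / e : ℕ) : ℝ) := Nat.cast_nonneg _
  have hlogQ : Real.log ((Z / e : ℕ) : ℝ) ≤ L := by
    rcases Nat.eq_zero_or_pos (Z / e) with h | h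
    · rw [h]; simp only [Nat.cast_zero, Real.log_zero]; exact hL0.le
    · refine Real.log_le_log (by exact_mod_cast h) ?_
      calc ((Z / e : ℕ) : ℝ) ≤ Z := by exact_mod_cast Nat.div_le_self _ _
        _ ≤ X / L ^ U := hZX
        _ ≤ X := div_le_self hXr.le (one_le_pow₀ hL1)
  refine (bdh lam (fun n => (lam_abs n).le) (X / e) (Z / e) q₀ γ _ hη).trans ?_
  have b1 : 2 * (q₀ : ℝ) * ((X : ℝ) / e / L ^ U) ^ 2 ≤ 2 * ((X : ℝ) / e) ^ 2 / L ^ U := by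
    calc 2 * (q₀ : ℝ) * ((X : ℝ) / e / L ^ U) ^ 2 ≤ 2 * L ^ U * ((X : ℝ) / e / L ^ U) ^ 2 := by gcongr
      _ = _ := by field_simp
  have b2 : 12 * ((X / e : ℕ) : ℝ) ^ 2 / (q₀ + 1) ≤ 12 * ((X : ℝ) / e) ^ 2 / L ^ U := by gcongr
  have b3 : 12 * ((X / e : ℕ) : ℝ) * ((Z / e : ℕ) : ℝ) ≤ 12 * ((X : ℝ) / e) ^ 2 / L ^ U := by
    calc 12 * ((X / e : ℕ) : ℝ) * ((Z / e : ℕ) : ℝ) ≤ 12 * ((X : ℝ) / e) * ((X / L ^ U) / e) := by
          have : ((Z / e : ℕ) : ℝ) ≤ (X / L ^ U) / e := hQ.trans (div_le_div_of_nonneg_right hZX her.le)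
          gcongr
      _ = _ := by field_simp
  have hneg : 0 ≤ Real.log ((Z / e : ℕ) : ℝ) := by
    rcases Nat.eq_zero_or_pos (Z / e) with h | h
    · rw [h]; simp
    · exact Real.log_nonneg (by exact_mod_cast h)
  have b4 : 2 * (q₀ : ℝ) * ((X : ℝ) / e / L ^ U) ^ 2 + 12 * ((X / e : ℕ) : ℝ) ^ 2 / (q₀ + 1) +
      12 * ((X / e : ℕ) : ℝ) * ((Z / e : ℕ) : ℝ) ≤ 26 * ((X : ℝ) / e) ^ 2 / L ^ U := by
    have : 26 * ((X : ℝ) / e) ^ 2 / L ^ U = 2 * ((X : ℝ) / e) ^ 2 / L ^ U + 12 * ((X : ℝ) / e) ^ 2 / L ^ U +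
      12 * ((X : ℝ) / e) ^ 2 / L ^ U := by ring
    rw [this]
    exact add_le_add (add_le_add b1 b2) b3
  refine mul_le_mul (by linarith) b4 (by positivity) (by positivity)

lemma top_le (δ : ℝ) (X : ℕ) (hX : 1 ≤ Real.log X) : top δ X ≤ X := by
  unfold top
  refine Nat.floor_le_of_le ?_
  have h0 : (0 : ℝ) ≤ X := Nat.cast_nonneg X
  calc (X : ℝ) * Real.exp (-(Real.log X) ^ δ) ≤ X * 1 := by
        refine mul_le_mul_of_nonneg_left (Real.exp_le_one_iff.2 ?_) h0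
        have : 0 ≤ (Real.log X) ^ δ := Real.rpow_nonneg (by linarith) _
        linarith
    _ = X := mul_one _

lemma sum_prs (Z : ℕ) (f : ℕ × ℕ → ℝ) : ∑ p ∈ prs Z, f p = ∑ e ∈ Icc 1 Z, ∑ d ∈ Icc 1 (Z / e), f (d, e) := by
  unfold prs
  rw [sum_filter, sum_product_right]
  refine sum_congr rfl fun e he => ?_
  rw [mem_Icc] at he
  rw [← sum_filter]
  refine sum_congr ?_ fun d _ => rfl
  ext d
  rw [mem_filter, mem_Icc, mem_Icc, Nat.le_div_iff_mul_le (by omega)]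
  constructor
  · rintro ⟨⟨a, _⟩, b⟩; exact ⟨a, b⟩
  · rintro ⟨a, b⟩; exact ⟨⟨a, le_trans (Nat.le_mul_of_pos_right _ (by omega)) b⟩, b⟩

/-- the weight of a pair -/
noncomputable def wt (C : ℕ) (p : ℕ × ℕ) : ℝ := ((p.1.divisors.card : ℝ) * p.2.divisors.card) ^ C

lemma wt_nonneg (C : ℕ) (p : ℕ × ℕ) : 0 ≤ wt C p := by unfold wt; positivity

lemma sum_wt (C X Z : ℕ) (hZ : Z ≤ X) : ∑ p ∈ prs Z, wt C p ^ 2 / ((p.1 : ℝ) * p.2) ≤ tsum (2 * C) X ^ 2 := by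
  have h1 : ∑ p ∈ prs Z, wt C p ^ 2 / ((p.1 : ℝ) * p.2) ≤ ∑ p ∈ Icc 1 X ×ˢ Icc 1 X, wt C p ^ 2 / ((p.1 : ℝ) * p.2) := by
    refine sum_le_sum_of_subset_of_nonneg ?_ fun _ _ _ => by positivity
    intro p hp
    unfold prs at hp
    rw [mem_filter, mem_product, mem_Icc, mem_Icc] at hp
    rw [mem_product, mem_Icc, mem_Icc]
    omega
  refine h1.trans (le_of_eq ?_)
  unfold tsum wt
  rw [sq, sum_mul_sum, sum_product]
  refine sum_congr rfl fun d _ => sum_congr rfl fun e _ => ?_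
  rw [mul_pow, mul_pow, ← pow_mul, ← pow_mul, mul_comm C 2, mul_div_mul_comm]

/-- **The mean over all lines and all pairs.** -/
theorem mean_two (δ : ℝ) (hδ : 0 < δ) (C V : ℕ) : ∃ X₀ : ℕ, ∀ X : ℕ, X₀ ≤ X → ∀ a : ℕ → ℕ → ℝ, (∀ d n, |a d n| ≤ 1) →
    ∑ p ∈ prs (top δ X), ∑ N ∈ range (X + 1), wt C p * |T a p N| ≤
      5 * (X : ℝ) ^ 2 * (1 + Real.log X) ^ (2 ^ (2 * C) + 2) / Real.log X ^ V := by
  obtain ⟨X₁, h1⟩ := W_bound δ hδ (4 * V)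
  obtain ⟨X₂, h2⟩ := ev_exp δ hδ 1 1
  refine ⟨max X₁ X₂, fun X hX a ha => ?_⟩
  obtain ⟨hX1, hL1, -, -⟩ := h2 X ((le_max_right _ _).trans hX)
  have hW := h1 X ((le_max_left _ _).trans hX)
  have hZX := top_le δ X hL1
  set L := Real.log X with hL
  set Z := top δ X with hZ
  have hL0 : 0 < L := by linarith
  have hXr : (1 : ℝ) ≤ X := by exact_mod_cast hX1
  -- the correlations
  have E1 : ∑ p ∈ prs Z, (p.2 : ℝ) ^ 2 * SC (vE p.2) X (Nat.lcm p.1 p.2) ≤ 26 * (1 + L) ^ 3 * (X : ℝ) ^ 3 / L ^ (4 * V) := by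
    rw [sum_prs]
    dsimp only
    calc ∑ e ∈ Icc 1 Z, ∑ d ∈ Icc 1 (Z / e), (e : ℝ) ^ 2 * SC (vE e) X (Nat.lcm d e)
        ≤ ∑ e ∈ Icc 1 Z, (26 * (1 + L) * (X : ℝ) ^ 3 / L ^ (4 * V)) * ((e.divisors.card : ℝ) ^ 1 / e) := by
          refine sum_le_sum fun e he => ?_
          rw [mem_Icc] at he
          have her : (0 : ℝ) < e := by exact_mod_cast he.1
          rw [← mul_sum]
          calc (e : ℝ) ^ 2 * ∑ d ∈ Icc 1 (Z / e), SC (vE e) X (Nat.lcm d e)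
              ≤ (e : ℝ) ^ 2 * ((X : ℝ) / e * (e.divisors.card * ((1 + L) * (26 * ((X : ℝ) / e) ^ 2 / L ^ (4 * V))))) :=
                mul_le_mul_of_nonneg_left (sum_SC e X (Z / e) he.1 _ fun γ => hW e he.1 he.2 γ) (by positivity)
            _ = _ := by field_simp
      _ = (26 * (1 + L) * (X : ℝ) ^ 3 / L ^ (4 * V)) * ∑ e ∈ Icc 1 Z, (e.divisors.card : ℝ) ^ 1 / e := by rw [mul_sum]
      _ ≤ (26 * (1 + L) * (X : ℝ) ^ 3 / L ^ (4 * V)) * tsum 1 X := by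
          refine mul_le_mul_of_nonneg_left ?_ (by positivity)
          unfold tsum
          exact sum_le_sum_of_subset_of_nonneg (Icc_subset_Icc_right hZX) fun _ _ _ => by positivity
      _ ≤ (26 * (1 + L) * (X : ℝ) ^ 3 / L ^ (4 * V)) * (1 + L) ^ (2 ^ 1) :=
          mul_le_mul_of_nonneg_left (tsum_le 1 X hX1) (by positivity)
      _ = _ := by ring
  have E2 : ∑ p ∈ prs Z, 3 * (X : ℝ) ^ 3 * (1 / (Nat.lcm p.1 p.2 : ℝ)) ≤ 3 * (X : ℝ) ^ 3 * (1 + L) ^ 4 := by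
    rw [← mul_sum]
    refine mul_le_mul_of_nonneg_left ?_ (by positivity)
    calc _ ≤ tsum 2 X := sum_lcm X Z hZX
      _ ≤ (1 + L) ^ (2 ^ 2) := tsum_le 2 X hX1
      _ = (1 + L) ^ 4 := by norm_num
  set P2 : ℝ := ∑ p ∈ prs Z, (p.1 : ℝ) * p.2 * ∑ N ∈ range (X + 1), T a p N ^ 2 with hP2
  have hP20 : 0 ≤ P2 := sum_nonneg fun p _ => mul_nonneg (by positivity) (sum_nonneg fun _ _ => sq_nonneg _)
  have hP2b : P2 ≤ 9 * (X : ℝ) ^ 3 * (1 + L) ^ 4 / L ^ (2 * V) := by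
    have e1 : P2 ^ 2 ≤ (∑ p ∈ prs Z, 3 * (X : ℝ) ^ 3 * (1 / (Nat.lcm p.1 p.2 : ℝ))) *
        ∑ p ∈ prs Z, (p.2 : ℝ) ^ 2 * SC (vE p.2) X (Nat.lcm p.1 p.2) :=
      sum_sq_le_sum_mul_sum_of_sq_le_mul _ (fun p _ => by positivity)
        (fun p _ => mul_nonneg (by positivity) (SC_nonneg _ _ _)) (fun p hp => R_sq a ha X Z hZX p hp)
    have e2 : P2 ^ 2 ≤ (9 * (X : ℝ) ^ 3 * (1 + L) ^ 4 / L ^ (2 * V)) ^ 2 := by
      calc P2 ^ 2 ≤ (3 * (X : ℝ) ^ 3 * (1 + L) ^ 4) * (26 * (1 + L) ^ 3 * (X : ℝ) ^ 3 / L ^ (4 * V)) :=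
            e1.trans (mul_le_mul E2 E1 (sum_nonneg fun p _ => mul_nonneg (by positivity) (SC_nonneg _ _ _)) (by positivity))
        _ = (78 * (X : ℝ) ^ 6 * (1 + L) ^ 7) / L ^ (4 * V) := by ring
        _ ≤ (81 * (X : ℝ) ^ 6 * (1 + L) ^ 8) / L ^ (4 * V) := by
            have : (1 + L) ^ 7 ≤ (1 + L) ^ 8 := pow_le_pow_right₀ (by linarith) (by norm_num)
            gcongr
            norm_num
        _ = _ := by
            rw [div_pow, ← pow_mul, show 2 * V * 2 = 4 * V by ring]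
            ring
    exact (pow_le_pow_iff_left₀ hP20 (by positivity) (by norm_num)).1 e2
  have hP1 : ∑ x ∈ prs Z ×ˢ range (X + 1), wt C x.1 ^ 2 / ((x.1.1 : ℝ) * x.1.2) ≤
      2 * X * ((1 + L) ^ (2 ^ (2 * C))) ^ 2 := by
    rw [sum_product]
    dsimp only
    have e1 : ∀ p ∈ prs Z, ∑ _N ∈ range (X + 1), wt C p ^ 2 / ((p.1 : ℝ) * p.2) =
        ((X : ℝ) + 1) * (wt C p ^ 2 / ((p.1 : ℝ) * p.2)) := by
      intro p _
      rw [sum_const, card_range, nsmul_eq_mul]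
      push_cast
      ring
    rw [sum_congr rfl e1, ← mul_sum]
    have e2 : tsum (2 * C) X ^ 2 ≤ ((1 + L) ^ (2 ^ (2 * C))) ^ 2 :=
      pow_le_pow_left₀ (tsum_nonneg _ _) (tsum_le _ X hX1) 2
    exact mul_le_mul (by linarith) ((sum_wt C X Z hZX).trans e2) (sum_nonneg fun p _ => by positivity) (by positivity)
  have hP2' : ∑ x ∈ prs Z ×ˢ range (X + 1), ((x.1.1 : ℝ) * x.1.2) * T a x.1 x.2 ^ 2 = P2 := by
    rw [sum_product, hP2]
    refine sum_congr rfl fun p _ => ?_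
    rw [mul_sum]
  have hS : (∑ x ∈ prs Z ×ˢ range (X + 1), wt C x.1 * |T a x.1 x.2|) ^ 2 ≤
      (2 * X * ((1 + L) ^ (2 ^ (2 * C))) ^ 2) * (9 * (X : ℝ) ^ 3 * (1 + L) ^ 4 / L ^ (2 * V)) := by
    have e1 := sum_sq_le_sum_mul_sum_of_sq_le_mul (prs Z ×ˢ range (X + 1))
      (r := fun x => wt C x.1 * |T a x.1 x.2|) (f := fun x => wt C x.1 ^ 2 / ((x.1.1 : ℝ) * x.1.2))
      (g := fun x => ((x.1.1 : ℝ) * x.1.2) * T a x.1 x.2 ^ 2) (fun x _ => by positivity)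
      (fun x _ => by positivity) (fun x hx => by
        rw [mem_product] at hx
        have hm := mem_prs.1 hx.1
        have a1 : (x.1.1 : ℝ) ≠ 0 := by have := hm.1; positivity
        have a2 : (x.1.2 : ℝ) ≠ 0 := by have := hm.2.1; positivity
        rw [mul_pow, sq_abs]
        apply le_of_eq
        field_simp)
    refine e1.trans ?_
    rw [hP2']
    exact mul_le_mul hP1 hP2b hP20 (by positivity)
  rw [← sum_product' (prs Z) (range (X + 1)) (fun p N => wt C p * |T a p N|)]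
  have hfin : (∑ x ∈ prs Z ×ˢ range (X + 1), wt C x.1 * |T a x.1 x.2|) ^ 2 ≤
      (5 * (X : ℝ) ^ 2 * (1 + L) ^ (2 ^ (2 * C) + 2) / L ^ V) ^ 2 := by
    refine hS.trans ?_
    calc (2 * X * ((1 + L) ^ (2 ^ (2 * C))) ^ 2) * (9 * (X : ℝ) ^ 3 * (1 + L) ^ 4 / L ^ (2 * V))
        = (18 * (X : ℝ) ^ 4 * (((1 + L) ^ (2 ^ (2 * C))) ^ 2 * (1 + L) ^ 4)) / L ^ (2 * V) := by ring
      _ ≤ (25 * (X : ℝ) ^ 4 * (((1 + L) ^ (2 ^ (2 * C))) ^ 2 * (1 + L) ^ 4)) / L ^ (2 * V) := by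
          gcongr
          norm_num
      _ = _ := by
          have e3 : (L ^ V) ^ 2 = L ^ (2 * V) := by rw [← pow_mul, mul_comm]
          rw [div_pow, e3, pow_add (1 + L) _ 2]
          ring
  exact (pow_le_pow_iff_left₀ (sum_nonneg fun x _ => mul_nonneg (wt_nonneg _ _) (abs_nonneg _)) (by positivity)
    (by norm_num)).1 hfin

end Pool.Agent.U325.PB
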