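import Pool.Agent.U325.PB.Fin2

/-!
Combinations of two-dimensional sieve functions with coefficients depending on one summand do not see
the parity of the number of prime factors on almost all lines `m + n = N`.
-/

set_option autoImplicit false

namespace Pool.Agent.U325.PB

open Finset Filter Topology

/-- the sum of `ρ(d, e) a(d, m)` over all `d ∣ m`, `e ∣ n` -/
noncomputable def bisieve (ρ a : ℕ → ℕ → ℝ) (m n : ℕ) : ℝ :=
  ∑ d ∈ m.divisors, ∑ e ∈ n.divisors, ρ d e * a d m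

/-- sieve weights of level `X exp (-(log X) ^ δ)`: `ρ(d, e) = 0` if `d e` is larger, and
`|ρ(d, e)| ≤ (log X) ^ C (τ(d) τ(e)) ^ C` -/
def IsBiweight (C : ℕ) (δ : ℝ) (X : ℕ) (ρ : ℕ → ℕ → ℝ) : Prop :=
  ∀ d e : ℕ, |ρ d e| ≤ Real.log X ^ C * ((d.divisors.card : ℝ) * e.divisors.card) ^ C ∧
    ((X : ℝ) * Real.exp (-(Real.log X) ^ δ) < (d : ℝ) * e → ρ d e = 0)

/-- `∑_k (∑_{d ∣ m, e ∣ n} ρ_k(d, e) a_k(d, m) + ∑_{d ∣ n, e ∣ m} σ_k(d, e) a_k(d, n))` -/
noncomputable def comb {K : ℕ} (a ρ σ : Fin K → ℕ → ℕ → ℝ) (m n : ℕ) : ℝ :=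
  ∑ k, (bisieve (ρ k) (a k) m n + bisieve (σ k) (a k) n m)

lemma bisieve_eq {C : ℕ} {δ : ℝ} {X : ℕ} {ρ : ℕ → ℕ → ℝ} (h : IsBiweight C δ X ρ) (a : ℕ → ℕ → ℝ) {m n : ℕ}
    (hm : m ≠ 0) (hn : n ≠ 0) :
    bisieve ρ a m n = ∑ p ∈ prs (top δ X), ρ p.1 p.2 * ((if p.1 ∣ m then a p.1 m else 0) * (if p.2 ∣ n then 1 else 0)) := by
  unfold bisieve
  rw [← sum_product']
  have h1 : ∑ p ∈ prs (top δ X), ρ p.1 p.2 * ((if p.1 ∣ m then a p.1 m else 0) * (if p.2 ∣ n then 1 else 0)) =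
      ∑ p ∈ (prs (top δ X)).filter (fun p => p.1 ∣ m ∧ p.2 ∣ n), ρ p.1 p.2 * a p.1 m := by
    rw [sum_filter]
    refine sum_congr rfl fun p _ => ?_
    by_cases b1 : p.1 ∣ m <;> by_cases b2 : p.2 ∣ n <;> simp [b1, b2]
  rw [h1]
  symm
  refine sum_subset ?_ ?_
  · intro p hp
    rw [mem_filter] at hp
    rw [mem_product]
    exact ⟨Nat.mem_divisors.2 ⟨hp.2.1, hm⟩, Nat.mem_divisors.2 ⟨hp.2.2, hn⟩⟩
  · intro p hp hp2
    rw [mem_product, Nat.mem_divisors, Nat.mem_divisors] at hp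
    have h2 : ρ p.1 p.2 = 0 := by
      refine (h p.1 p.2).2 ?_
      by_contra hcon
      push Not at hcon
      apply hp2
      rw [mem_filter, mem_prs]
      refine ⟨⟨Nat.pos_of_dvd_of_pos hp.1.1 (Nat.pos_of_ne_zero hm), Nat.pos_of_dvd_of_pos hp.2.1 (Nat.pos_of_ne_zero hn), ?_⟩,
        hp.1.1, hp.2.1⟩
      unfold top
      refine Nat.le_floor ?_
      push_cast
      exact hcon
    rw [h2, zero_mul]

/-- the sum over all `k` and all pairs -/
noncomputable def total {K : ℕ} (a : Fin K → ℕ → ℕ → ℝ) (C : ℕ) (δ : ℝ) (X N : ℕ) : ℝ :=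
  ∑ k, ∑ p ∈ prs (top δ X), wt C p * |T (a k) p N|

lemma one_side {C : ℕ} {δ : ℝ} {X : ℕ} {ρ : ℕ → ℕ → ℝ} (h : IsBiweight C δ X ρ) (a : ℕ → ℕ → ℝ) (N : ℕ) :
    |∑ m ∈ Ico 1 N, lam m * lam (N - m) * bisieve ρ a m (N - m)| ≤
      Real.log X ^ C * ∑ p ∈ prs (top δ X), wt C p * |T a p N| := by
  have h1 : ∑ m ∈ Ico 1 N, lam m * lam (N - m) * bisieve ρ a m (N - m) =
      ∑ p ∈ prs (top δ X), ρ p.1 p.2 * T a p N := by
    unfold T
    simp only [mul_sum]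
    rw [sum_comm]
    refine sum_congr rfl fun m hm => ?_
    rw [mem_Ico] at hm
    rw [bisieve_eq h a (by omega : m ≠ 0) (by omega : N - m ≠ 0), mul_sum]
    refine sum_congr rfl fun p _ => ?_
    unfold uD vE
    by_cases b1 : p.1 ∣ m <;> by_cases b2 : p.2 ∣ N - m <;> simp [b1, b2] <;> ring
  rw [h1, mul_sum]
  refine (abs_sum_le_sum_abs _ _).trans (sum_le_sum fun p _ => ?_)
  rw [abs_mul, ← mul_assoc]
  exact mul_le_mul_of_nonneg_right (h p.1 p.2).1 (abs_nonneg _)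

lemma reflect' (N : ℕ) (f : ℕ → ℕ → ℝ) : ∑ m ∈ Ico 1 N, f m (N - m) = ∑ m ∈ Ico 1 N, f (N - m) m := by
  refine sum_bij' (fun m _ => N - m) (fun m _ => N - m) ?_ ?_ ?_ ?_ ?_
  · intro m hm; rw [mem_Ico] at hm ⊢; omega
  · intro m hm; rw [mem_Ico] at hm ⊢; omega
  · intro m hm; rw [mem_Ico] at hm; omega
  · intro m hm; rw [mem_Ico] at hm; omega
  · intro m hm
    rw [mem_Ico] at hm
    have : N - (N - m) = m := by omega
    simp only [this]

lemma comb_bound {K : ℕ} {C : ℕ} {δ : ℝ} {X : ℕ} (a ρ σ : Fin K → ℕ → ℕ → ℝ) (hρ : ∀ k, IsBiweight C δ X (ρ k))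
    (hσ : ∀ k, IsBiweight C δ X (σ k)) (N : ℕ) :
    |∑ m ∈ Ico 1 N, lam m * lam (N - m) * comb a ρ σ m (N - m)| ≤ 2 * Real.log X ^ C * total a C δ X N := by
  have h1 : ∑ m ∈ Ico 1 N, lam m * lam (N - m) * comb a ρ σ m (N - m) =
      ∑ k, (∑ m ∈ Ico 1 N, lam m * lam (N - m) * bisieve (ρ k) (a k) m (N - m) +
        ∑ m ∈ Ico 1 N, lam m * lam (N - m) * bisieve (σ k) (a k) m (N - m)) := by
    have e1 : ∀ k : Fin K, ∑ m ∈ Ico 1 N, lam m * lam (N - m) * bisieve (σ k) (a k) m (N - m) =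
        ∑ m ∈ Ico 1 N, lam m * lam (N - m) * bisieve (σ k) (a k) (N - m) m := by
      intro k
      rw [reflect' N (fun m n => lam m * lam n * bisieve (σ k) (a k) m n)]
      exact sum_congr rfl fun m _ => by ring
    have e0 : ∑ m ∈ Ico 1 N, lam m * lam (N - m) * comb a ρ σ m (N - m) =
        ∑ k, (∑ m ∈ Ico 1 N, lam m * lam (N - m) * bisieve (ρ k) (a k) m (N - m) +
          ∑ m ∈ Ico 1 N, lam m * lam (N - m) * bisieve (σ k) (a k) (N - m) m) := by
      simp only [← sum_add_distrib]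
      rw [sum_comm]
      refine sum_congr rfl fun m _ => ?_
      unfold comb
      rw [mul_sum]
      exact sum_congr rfl fun k _ => by ring
    rw [e0]
    exact sum_congr rfl fun k _ => by rw [e1 k]
  rw [h1]
  unfold total
  rw [mul_sum]
  refine (abs_sum_le_sum_abs _ _).trans (sum_le_sum fun k _ => ?_)
  refine (abs_add_le _ _).trans ?_
  have := one_side (hρ k) (a k) N
  have := one_side (hσ k) (a k) N
  linarith

/-- **The exceptional set.** -/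
theorem few_two (A C : ℕ) (δ : ℝ) (hδ : 0 < δ) : ∃ X₀ : ℕ, ∀ X : ℕ, X₀ ≤ X → ∀ (K : ℕ) (a : Fin K → ℕ → ℕ → ℝ),
    (K : ℝ) ≤ Real.log X ^ C → (∀ k d n, |a k d n| ≤ 1) →
    ∃ E : Finset ℕ, (E.card : ℝ) ≤ X / Real.log X ^ A ∧ ∀ N : ℕ, N ≤ X → N ∉ E →
      2 * Real.log X ^ C * total a C δ X N ≤ X / Real.log X ^ A := by
  set n₀ : ℕ := 2 ^ (2 * C) + 2 with hn₀
  set V : ℕ := 2 * A + 2 * C + n₀ + 1 with hV
  obtain ⟨X₁, h1⟩ := mean_two δ hδ C V
  obtain ⟨X₂, h2⟩ := ev_exp δ hδ 1 (10 * 2 ^ n₀)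
  refine ⟨max X₁ X₂, fun X hX K a hK ha => ?_⟩
  obtain ⟨hX3, hL1, hL, -⟩ := h2 X ((le_max_right _ _).trans hX)
  have hmean := h1 X ((le_max_left _ _).trans hX)
  have hXr : (0 : ℝ) < X := by exact_mod_cast hX3
  set L := Real.log X with hLd
  have hL0 : 0 < L := by linarith
  set thr : ℝ := X / (2 * L ^ (A + C)) with hthr
  have hthr0 : 0 < thr := by positivity
  refine ⟨(range (X + 1)).filter (fun N => thr < total a C δ X N), ?_, ?_⟩
  · set E := (range (X + 1)).filter (fun N => thr < total a C δ X N) with hE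
    have hsc0 : ∀ N, 0 ≤ total a C δ X N := fun N =>
      sum_nonneg fun k _ => sum_nonneg fun p _ => mul_nonneg (wt_nonneg _ _) (abs_nonneg _)
    have hcount : (E.card : ℝ) * thr ≤ ∑ N ∈ range (X + 1), total a C δ X N := by
      calc (E.card : ℝ) * thr = ∑ N ∈ E, thr := by rw [sum_const, nsmul_eq_mul]
        _ ≤ ∑ N ∈ E, total a C δ X N := sum_le_sum fun N hN => (mem_filter.1 hN).2.le
        _ ≤ ∑ N ∈ range (X + 1), total a C δ X N :=
            sum_le_sum_of_subset_of_nonneg (filter_subset _ _) fun N _ _ => hsc0 N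
    have hsum : ∑ N ∈ range (X + 1), total a C δ X N ≤ L ^ C * (5 * (X : ℝ) ^ 2 * (1 + L) ^ n₀ / L ^ V) := by
      unfold total
      rw [sum_comm]
      calc ∑ k, ∑ N ∈ range (X + 1), ∑ p ∈ prs (top δ X), wt C p * |T (a k) p N|
          ≤ ∑ _k : Fin K, 5 * (X : ℝ) ^ 2 * (1 + L) ^ n₀ / L ^ V := by
            refine sum_le_sum fun k _ => ?_
            rw [sum_comm]
            exact hmean (a k) (ha k)
        _ = K * (5 * (X : ℝ) ^ 2 * (1 + L) ^ n₀ / L ^ V) := by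
            rw [sum_const, card_univ, Fintype.card_fin, nsmul_eq_mul]
        _ ≤ _ := mul_le_mul_of_nonneg_right hK (by positivity)
    have h4 : (E.card : ℝ) * thr ≤ X / L ^ A * thr := by
      refine (hcount.trans hsum).trans ?_
      rw [hthr, div_mul_div_comm, mul_div_assoc', div_le_div_iff₀ (by positivity) (by positivity)]
      have e2 : (1 + L) ^ n₀ ≤ 2 ^ n₀ * L ^ n₀ := by
        rw [← mul_pow]
        exact pow_le_pow_left₀ (by linarith) (by linarith) _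
      have e3 : 10 * L ^ (2 * A + 2 * C) * (1 + L) ^ n₀ ≤ L ^ V := by
        calc 10 * L ^ (2 * A + 2 * C) * (1 + L) ^ n₀ ≤ 10 * L ^ (2 * A + 2 * C) * (2 ^ n₀ * L ^ n₀) :=
              mul_le_mul_of_nonneg_left e2 (by positivity)
          _ = (10 * 2 ^ n₀) * (L ^ (2 * A + 2 * C) * L ^ n₀) := by ring
          _ ≤ L * (L ^ (2 * A + 2 * C) * L ^ n₀) := mul_le_mul_of_nonneg_right hL (by positivity)
          _ = L ^ V := by rw [hV]; ring
      calc L ^ C * (5 * (X : ℝ) ^ 2 * (1 + L) ^ n₀) * (L ^ A * (2 * L ^ (A + C)))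
          = (X : ℝ) ^ 2 * (10 * L ^ (2 * A + 2 * C) * (1 + L) ^ n₀) := by ring
        _ ≤ (X : ℝ) ^ 2 * L ^ V := mul_le_mul_of_nonneg_left e3 (by positivity)
        _ = X * X * L ^ V := by ring
    exact le_of_mul_le_mul_right h4 hthr0
  · intro N hN hNE
    have h3 : total a C δ X N ≤ thr := by
      by_contra hcon
      push Not at hcon
      exact hNE (mem_filter.2 ⟨mem_range.2 (by omega), hcon⟩)
    calc 2 * L ^ C * total a C δ X N ≤ 2 * L ^ C * thr := mul_le_mul_of_nonneg_left h3 (by positivity)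
      _ = X / L ^ A := by
          rw [hthr, pow_add]
          field_simp

end Pool.Agent.U325.PB
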