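import Pool.Agent.H373R2.T7.BilF

/-!
Mean square over the lines `m + n = N` of sums of products of two functions of one variable.
-/

set_option autoImplicit false

namespace Pool.Agent.U325.PB

open Finset
open Pool.Agent.H807R2.Dav (ee ee_add)
open Pool.Agent.H373R2.T7 (sq_expand parseval_Icc)

/-- products of the two exponential sums -/
lemma prod_sum (X : ℕ) (c v : ℕ → ℝ) (M : ℕ) (t : ℝ) :
    ∑ i ∈ Icc 1 X ×ˢ Icc 1 X, ((c i.1 * v i.2 : ℝ) : ℂ) * ee (t * ((((i.1 : ℤ) + (i.2 : ℤ) : ℤ) : ℝ) / M)) =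
      (∑ m ∈ Icc 1 X, (c m : ℂ) * ee (t * (((1 * (m : ℤ) : ℤ) : ℝ) / M))) *
        ∑ n ∈ Icc 1 X, (v n : ℂ) * ee ((n : ℝ) * (t / M)) := by
  rw [sum_product, sum_mul_sum]
  refine sum_congr rfl fun m _ => sum_congr rfl fun n _ => ?_
  have h1 : t * ((((m : ℤ) + (n : ℤ) : ℤ) : ℝ) / M) = t * (((1 * (m : ℤ) : ℤ) : ℝ) / M) + (n : ℝ) * (t / M) := by
    push_cast; ring
  rw [h1, ee_add]
  push_cast
  ring

/-- the sum over the line as a sum over a fibre -/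
lemma line_eq (X N : ℕ) (hN : N ≤ X) (c v : ℕ → ℝ) :
    ∑ m ∈ Ico 1 N, c m * v (N - m) =
      ∑ i ∈ (Icc 1 X ×ˢ Icc 1 X).filter (fun i => i.1 + i.2 = N), c i.1 * v i.2 := by
  refine sum_bij' (fun m _ => (m, N - m)) (fun i _ => i.1) ?_ ?_ ?_ ?_ ?_
  · intro m hm
    rw [mem_Ico] at hm
    rw [mem_filter, mem_product, mem_Icc, mem_Icc]
    dsimp only
    omega
  · intro i hi
    rw [mem_filter, mem_product, mem_Icc, mem_Icc] at hi
    rw [mem_Ico]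
    omega
  · intro m _; rfl
  · intro i hi
    rw [mem_filter, mem_product, mem_Icc, mem_Icc] at hi
    ext
    · rfl
    · dsimp only; omega
  · intro m _; rfl

/-- **The mean square over the lines.** -/
theorem mean_square (X : ℕ) (c v : ℕ → ℝ) (hc : ∀ n, |c n| ≤ 1) (S : ℝ)
    (hS : ∀ t : ℝ, ‖∑ n ∈ Icc 1 X, (v n : ℂ) * ee ((n : ℝ) * t)‖ ≤ S) :
    ∑ N ∈ range (X + 1), (∑ m ∈ Ico 1 N, c m * v (N - m)) ^ 2 ≤ S ^ 2 * X := by
  set M : ℕ := 2 * X + 1 with hM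
  have hM1 : 1 ≤ M := by omega
  have hM0 : (0 : ℝ) < M := by exact_mod_cast hM1
  set I := Icc 1 X ×ˢ Icc 1 X with hI
  have h1 := sq_expand I (fun i => ((c i.1 * v i.2 : ℝ) : ℂ)) (fun i => (i.1 : ℤ) + (i.2 : ℤ)) M hM1
  have h2 : ∑ i ∈ I, ∑ j ∈ I, ((c i.1 * v i.2 : ℝ) : ℂ) * (starRingEnd ℂ) ((c j.1 * v j.2 : ℝ) : ℂ) *
      (if (M : ℤ) ∣ ((i.1 : ℤ) + (i.2 : ℤ)) - ((j.1 : ℤ) + (j.2 : ℤ)) then (M : ℂ) else 0) =
      ((M * ∑ N ∈ range (2 * X + 1), (∑ i ∈ I.filter (fun i => i.1 + i.2 = N), c i.1 * v i.2) ^ 2 : ℝ) : ℂ) := by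
    have e1 : ∀ N ∈ range (2 * X + 1), (∑ i ∈ I.filter (fun i => i.1 + i.2 = N), c i.1 * v i.2) ^ 2 =
        ∑ i ∈ I, ∑ j ∈ I, if i.1 + i.2 = N ∧ j.1 + j.2 = N then c i.1 * v i.2 * (c j.1 * v j.2) else 0 := by
      intro N _
      rw [sq, sum_filter, sum_mul_sum]
      refine sum_congr rfl fun i _ => sum_congr rfl fun j _ => ?_
      by_cases a1 : i.1 + i.2 = N <;> by_cases a2 : j.1 + j.2 = N <;> simp [a1, a2]
    have e2 : ∑ N ∈ range (2 * X + 1), ∑ i ∈ I, ∑ j ∈ I,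
        (if i.1 + i.2 = N ∧ j.1 + j.2 = N then c i.1 * v i.2 * (c j.1 * v j.2) else 0) =
        ∑ i ∈ I, ∑ j ∈ I, ∑ N ∈ range (2 * X + 1),
          (if i.1 + i.2 = N ∧ j.1 + j.2 = N then c i.1 * v i.2 * (c j.1 * v j.2) else 0) := by
      rw [sum_comm]
      exact sum_congr rfl fun i _ => sum_comm
    rw [sum_congr rfl e1, e2]
    simp only [mul_sum]
    push_cast
    refine sum_congr rfl fun i hi => sum_congr rfl fun j hj => ?_
    rw [hI, mem_product, mem_Icc, mem_Icc] at hi hj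
    rw [map_mul, Complex.conj_ofReal, Complex.conj_ofReal, ← mul_sum]
    by_cases a1 : i.1 + i.2 = j.1 + j.2
    · rw [if_pos (by rw [show (i.1 : ℤ) + (i.2 : ℤ) = (j.1 : ℤ) + (j.2 : ℤ) by exact_mod_cast a1, sub_self]; exact dvd_zero _)]
      rw [sum_eq_single (i.1 + i.2)]
      · rw [if_pos ⟨rfl, a1.symm⟩]; push_cast; ring
      · intro b _ hb
        rw [if_neg (fun h => hb h.1.symm), Complex.ofReal_zero]
      · intro h
        exact absurd (mem_range.2 (by omega)) h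
    · have hnd : ¬ (M : ℤ) ∣ ((i.1 : ℤ) + (i.2 : ℤ)) - ((j.1 : ℤ) + (j.2 : ℤ)) := by
        intro hd
        have h4 : |((i.1 : ℤ) + (i.2 : ℤ)) - ((j.1 : ℤ) + (j.2 : ℤ))| < M := by rw [abs_lt, hM]; constructor <;> push_cast <;> omega
        have := Int.eq_zero_of_abs_lt_dvd hd h4
        omega
      have hz : ∑ N ∈ range (2 * X + 1), (((if i.1 + i.2 = N ∧ j.1 + j.2 = N then c i.1 * v i.2 * (c j.1 * v j.2) else 0 : ℝ)) : ℂ) = 0 := by
        refine sum_eq_zero fun N _ => ?_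
        rw [if_neg (fun h => a1 (h.1.trans h.2.symm)), Complex.ofReal_zero]
      rw [if_neg hnd, hz, mul_zero, mul_zero]
  rw [h2] at h1
  have h3 : (M : ℝ) * ∑ N ∈ range (2 * X + 1), (∑ i ∈ I.filter (fun i => i.1 + i.2 = N), c i.1 * v i.2) ^ 2 =
      ∑ t ∈ range M, ‖∑ i ∈ I, ((c i.1 * v i.2 : ℝ) : ℂ) * ee ((t : ℝ) * ((((i.1 : ℤ) + (i.2 : ℤ) : ℤ) : ℝ) / M))‖ ^ 2 := by
    exact_mod_cast h1.symm
  have hS0 : 0 ≤ S := (norm_nonneg _).trans (hS 0)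
  have h4 : ∑ t ∈ range M, ‖∑ i ∈ I, ((c i.1 * v i.2 : ℝ) : ℂ) * ee ((t : ℝ) * ((((i.1 : ℤ) + (i.2 : ℤ) : ℤ) : ℝ) / M))‖ ^ 2 ≤
      S ^ 2 * (M * X) := by
    calc _ ≤ ∑ t ∈ range M, ‖∑ m ∈ Icc 1 X, (c m : ℂ) * ee ((t : ℝ) * (((1 * (m : ℤ) : ℤ) : ℝ) / M))‖ ^ 2 * S ^ 2 := by
          refine sum_le_sum fun t _ => ?_
          rw [prod_sum, norm_mul, mul_pow]
          exact mul_le_mul_of_nonneg_left (pow_le_pow_left₀ (norm_nonneg _) (hS _) 2) (by positivity)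
      _ = S ^ 2 * (M * ∑ m ∈ Icc 1 X, ‖(c m : ℂ)‖ ^ 2) := by
          rw [← sum_mul, parseval_Icc X M hM1 (by omega) (fun m => (c m : ℂ)) 1 (Or.inl rfl)]
          ring
      _ ≤ S ^ 2 * (M * X) := by
          refine mul_le_mul_of_nonneg_left (mul_le_mul_of_nonneg_left ?_ hM0.le) (by positivity)
          calc ∑ m ∈ Icc 1 X, ‖(c m : ℂ)‖ ^ 2 ≤ ∑ m ∈ Icc 1 X, (1 : ℝ) := by
                refine sum_le_sum fun m _ => ?_
                rw [Complex.norm_real, Real.norm_eq_abs]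
                exact pow_le_one₀ (abs_nonneg _) (hc m)
            _ = X := by simp
  rw [← h3] at h4
  have h5 : ∑ N ∈ range (2 * X + 1), (∑ i ∈ I.filter (fun i => i.1 + i.2 = N), c i.1 * v i.2) ^ 2 ≤ S ^ 2 * X := by
    have : (M : ℝ) * ∑ N ∈ range (2 * X + 1), (∑ i ∈ I.filter (fun i => i.1 + i.2 = N), c i.1 * v i.2) ^ 2 ≤ M * (S ^ 2 * X) := by
      calc _ ≤ S ^ 2 * (M * X) := h4
        _ = _ := by ring
    exact le_of_mul_le_mul_left this hM0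
  refine le_trans ?_ h5
  calc ∑ N ∈ range (X + 1), (∑ m ∈ Ico 1 N, c m * v (N - m)) ^ 2
      = ∑ N ∈ range (X + 1), (∑ i ∈ I.filter (fun i => i.1 + i.2 = N), c i.1 * v i.2) ^ 2 := by
        refine sum_congr rfl fun N hN => ?_
        rw [line_eq X N (by rw [mem_range] at hN; omega)]
    _ ≤ _ := sum_le_sum_of_subset_of_nonneg (range_subset_range.2 (by omega)) fun _ _ _ => sq_nonneg _

/-- the first mean over the lines -/
theorem mean_abs (X : ℕ) (hX : 1 ≤ X) (c v : ℕ → ℝ) (hc : ∀ n, |c n| ≤ 1) (S : ℝ)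
    (hS : ∀ t : ℝ, ‖∑ n ∈ Icc 1 X, (v n : ℂ) * ee ((n : ℝ) * t)‖ ≤ S) :
    ∑ N ∈ range (X + 1), |∑ m ∈ Ico 1 N, c m * v (N - m)| ≤ 2 * X * S := by
  have hS0 : 0 ≤ S := (norm_nonneg _).trans (hS 0)
  have hXr : (1 : ℝ) ≤ X := by exact_mod_cast hX
  have h1 := mean_square X c v hc S hS
  have h2 : (∑ N ∈ range (X + 1), |∑ m ∈ Ico 1 N, c m * v (N - m)|) ^ 2 ≤
      (X + 1) * ∑ N ∈ range (X + 1), (∑ m ∈ Ico 1 N, c m * v (N - m)) ^ 2 := by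
    have := sq_sum_le_card_mul_sum_sq (s := range (X + 1)) (f := fun N => |∑ m ∈ Ico 1 N, c m * v (N - m)|)
    rw [card_range] at this
    simp only [sq_abs] at this
    push_cast at this
    exact this
  have h3 : (∑ N ∈ range (X + 1), |∑ m ∈ Ico 1 N, c m * v (N - m)|) ^ 2 ≤ (2 * X * S) ^ 2 := by
    calc _ ≤ (X + 1) * (S ^ 2 * X) := h2.trans (mul_le_mul_of_nonneg_left h1 (by linarith))
      _ ≤ (2 * X * S) ^ 2 := by nlinarith [mul_nonneg hS0 hS0, mul_nonneg (mul_nonneg hS0 hS0) (by linarith : (0:ℝ) ≤ X)]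
  exact le_of_sq_le_sq h3 (by positivity) |> fun h => h

end Pool.Agent.U325.PB
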