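import Pool.Agent.U325.PB.Bdh
import Pool.Agent.U325.PB.Line

/-!
Sums over the lines `m + n = N` in terms of autocorrelations, and the correlations at the multiples
of `q` in terms of the exponential sum.
-/

set_option autoImplicit false

namespace Pool.Agent.U325.PB

open Finset
open Pool.Agent.H807R2.Dav (ee ee_add norm_ee ee_add_int)
open Pool.Agent.H373R2.T7 (orth conj_ee)

/-- the autocorrelation -/
noncomputable def cor (v : ℕ → ℝ) (X : ℕ) (h : ℤ) : ℝ :=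
  ∑ i ∈ Icc 1 X, ∑ j ∈ Icc 1 X, if (i : ℤ) - (j : ℤ) = h then v i * v j else 0

/-- the multiples of `q` in `[-X, X]` -/
noncomputable def mul (X q : ℕ) : Finset ℤ := (Icc (-(X : ℤ)) X).filter (fun h => (q : ℤ) ∣ h)

lemma cor_sum (u v : ℕ → ℝ) (X q : ℕ) : ∑ h ∈ mul X q, cor u X h * cor v X h =
    ∑ i ∈ Icc 1 X, ∑ j ∈ Icc 1 X, ∑ k ∈ Icc 1 X, ∑ l ∈ Icc 1 X,
      if (i : ℤ) - (j : ℤ) = (k : ℤ) - (l : ℤ) ∧ (q : ℤ) ∣ (i : ℤ) - (j : ℤ) then u i * u j * (v k * v l) else 0 := by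
  have h1 : ∀ h ∈ mul X q, cor u X h * cor v X h =
      ∑ i ∈ Icc 1 X, ∑ j ∈ Icc 1 X, ∑ k ∈ Icc 1 X, ∑ l ∈ Icc 1 X,
        if (i : ℤ) - (j : ℤ) = h ∧ (k : ℤ) - (l : ℤ) = h then u i * u j * (v k * v l) else 0 := by
    intro h _
    unfold cor
    rw [sum_mul]
    refine sum_congr rfl fun i _ => ?_
    rw [sum_mul]
    refine sum_congr rfl fun j _ => ?_
    rw [mul_sum]
    refine sum_congr rfl fun k _ => ?_
    rw [mul_sum]
    refine sum_congr rfl fun l _ => ?_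
    by_cases a1 : (i : ℤ) - (j : ℤ) = h <;> by_cases a2 : (k : ℤ) - (l : ℤ) = h <;> simp [a1, a2]
  rw [sum_congr rfl h1, sum_comm]
  refine sum_congr rfl fun i hi => ?_
  rw [sum_comm]
  refine sum_congr rfl fun j hj => ?_
  rw [sum_comm]
  refine sum_congr rfl fun k hk => ?_
  rw [sum_comm]
  refine sum_congr rfl fun l hl => ?_
  rw [mem_Icc] at hi hj
  by_cases a : (i : ℤ) - (j : ℤ) = (k : ℤ) - (l : ℤ) ∧ (q : ℤ) ∣ (i : ℤ) - (j : ℤ)
  · rw [if_pos a, sum_eq_single ((i : ℤ) - (j : ℤ))]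
    · rw [if_pos ⟨rfl, a.1.symm⟩]
    · intro b _ hb
      rw [if_neg (fun h => hb h.1.symm)]
    · intro h
      refine absurd ?_ h
      unfold mul
      rw [mem_filter, mem_Icc]
      exact ⟨by omega, a.2⟩
  · rw [if_neg a]
    refine sum_eq_zero fun h hh => ?_
    unfold mul at hh
    rw [mem_filter] at hh
    rw [if_neg]
    rintro ⟨a1, a2⟩
    exact a ⟨a1.trans a2.symm, a1 ▸ hh.2⟩

/-- the number of weighted solutions -/
noncomputable def quad (u v : ℕ → ℝ) (X : ℕ) : ℝ :=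
  ∑ i ∈ Icc 1 X, ∑ j ∈ Icc 1 X, ∑ k ∈ Icc 1 X, ∑ l ∈ Icc 1 X,
    if (i : ℤ) - (j : ℤ) = (k : ℤ) - (l : ℤ) then u i * u j * (v k * v l) else 0

lemma quad_eq (u v : ℕ → ℝ) (X d e : ℕ) (hu : ∀ i, ¬ d ∣ i → u i = 0) (hv : ∀ i, ¬ e ∣ i → v i = 0) :
    quad u v X = ∑ h ∈ mul X (Nat.lcm d e), cor u X h * cor v X h := by
  rw [cor_sum]
  unfold quad
  refine sum_congr rfl fun i _ => sum_congr rfl fun j _ => sum_congr rfl fun k _ => sum_congr rfl fun l _ => ?_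
  by_cases a : (i : ℤ) - (j : ℤ) = (k : ℤ) - (l : ℤ)
  · by_cases b1 : d ∣ i
    · by_cases b2 : d ∣ j
      · by_cases b3 : e ∣ k
        · by_cases b4 : e ∣ l
          · have h1 : (d : ℤ) ∣ (i : ℤ) - (j : ℤ) := dvd_sub (Int.natCast_dvd_natCast.2 b1) (Int.natCast_dvd_natCast.2 b2)
            have h2 : (e : ℤ) ∣ (i : ℤ) - (j : ℤ) := by
              rw [a]; exact dvd_sub (Int.natCast_dvd_natCast.2 b3) (Int.natCast_dvd_natCast.2 b4)
            have h3 : ((Nat.lcm d e : ℕ) : ℤ) ∣ (i : ℤ) - (j : ℤ) := by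
              rw [Int.natCast_dvd] at h1 h2 ⊢
              exact Nat.lcm_dvd h1 h2
            rw [if_pos a, if_pos ⟨a, h3⟩]
          · rw [hv l b4]; simp
        · rw [hv k b3]; simp
      · rw [hu j b2]; simp
    · rw [hu i b1]; simp
  · rw [if_neg a, if_neg (fun h => a h.1)]

/-- the mean square over the lines -/
lemma line_quad (X : ℕ) (u v : ℕ → ℝ) :
    ∑ N ∈ range (X + 1), (∑ m ∈ Ico 1 N, u m * v (N - m)) ^ 2 ≤ quad u v X := by
  set I := Icc 1 X ×ˢ Icc 1 X with hI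
  have h2 : ∑ N ∈ range (2 * X + 1), (∑ i ∈ I.filter (fun i => i.1 + i.2 = N), u i.1 * v i.2) ^ 2 =
      ∑ i ∈ I, ∑ j ∈ I, if i.1 + i.2 = j.1 + j.2 then u i.1 * v i.2 * (u j.1 * v j.2) else 0 := by
    have e1 : ∀ N ∈ range (2 * X + 1), (∑ i ∈ I.filter (fun i => i.1 + i.2 = N), u i.1 * v i.2) ^ 2 =
        ∑ i ∈ I, ∑ j ∈ I, if i.1 + i.2 = N ∧ j.1 + j.2 = N then u i.1 * v i.2 * (u j.1 * v j.2) else 0 := by
      intro N _
      rw [sq, sum_filter, sum_mul_sum]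
      refine sum_congr rfl fun i _ => sum_congr rfl fun j _ => ?_
      by_cases a1 : i.1 + i.2 = N <;> by_cases a2 : j.1 + j.2 = N <;> simp [a1, a2]
    rw [sum_congr rfl e1, sum_comm]
    refine sum_congr rfl fun i hi => ?_
    rw [sum_comm]
    refine sum_congr rfl fun j hj => ?_
    rw [hI, mem_product, mem_Icc, mem_Icc] at hi hj
    by_cases a1 : i.1 + i.2 = j.1 + j.2
    · rw [if_pos a1, sum_eq_single (i.1 + i.2)]
      · rw [if_pos ⟨rfl, a1.symm⟩]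
      · intro b _ hb
        rw [if_neg (fun h => hb h.1.symm)]
      · intro h
        exact absurd (mem_range.2 (by omega)) h
    · rw [if_neg a1]
      refine sum_eq_zero fun N _ => ?_
      rw [if_neg (fun h => a1 (h.1.trans h.2.symm))]
  have h3 : (∑ i ∈ I, ∑ j ∈ I, if i.1 + i.2 = j.1 + j.2 then u i.1 * v i.2 * (u j.1 * v j.2) else 0) = quad u v X := by
    rw [hI, sum_product]
    unfold quad
    refine sum_congr rfl fun i _ => ?_
    have e1 : ∀ l ∈ Icc 1 X, (∑ j ∈ Icc 1 X ×ˢ Icc 1 X, if i + l = j.1 + j.2 then u i * v l * (u j.1 * v j.2) else 0) =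
        ∑ j ∈ Icc 1 X, ∑ k ∈ Icc 1 X, if (i : ℤ) - (j : ℤ) = (k : ℤ) - (l : ℤ) then u i * u j * (v k * v l) else 0 := by
      intro l _
      rw [sum_product]
      refine sum_congr rfl fun j _ => sum_congr rfl fun k _ => ?_
      by_cases a : i + l = j + k
      · rw [if_pos a, if_pos (by omega)]; ring
      · rw [if_neg a, if_neg (by omega)]
    rw [sum_congr rfl e1, sum_comm]
    refine sum_congr rfl fun j _ => ?_
    rw [sum_comm]
  rw [← h3, ← h2]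
  calc ∑ N ∈ range (X + 1), (∑ m ∈ Ico 1 N, u m * v (N - m)) ^ 2
      = ∑ N ∈ range (X + 1), (∑ i ∈ I.filter (fun i => i.1 + i.2 = N), u i.1 * v i.2) ^ 2 := by
        refine sum_congr rfl fun N hN => ?_
        rw [line_eq X N (by rw [mem_range] at hN; omega)]
    _ ≤ _ := sum_le_sum_of_subset_of_nonneg (range_subset_range.2 (by omega)) fun _ _ _ => sq_nonneg _

/-- the sum of the squares of the correlations at the multiples of `q` -/
noncomputable def SC (v : ℕ → ℝ) (X q : ℕ) : ℝ := ∑ h ∈ mul X q, cor v X h ^ 2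

lemma SC_nonneg (v : ℕ → ℝ) (X q : ℕ) : 0 ≤ SC v X q := sum_nonneg fun _ _ => sq_nonneg _

lemma quad_sq (u v : ℕ → ℝ) (X d e : ℕ) (hu : ∀ i, ¬ d ∣ i → u i = 0) (hv : ∀ i, ¬ e ∣ i → v i = 0) :
    quad u v X ^ 2 ≤ SC u X (Nat.lcm d e) * SC v X (Nat.lcm d e) := by
  rw [quad_eq u v X d e hu hv]
  exact sum_mul_sq_le_sq_mul_sq _ _ _

/-! ### the trivial bound -/

lemma cor_triv (u : ℕ → ℝ) (hu1 : ∀ n, |u n| ≤ 1) (X d : ℕ) (hd : 1 ≤ d) (hu : ∀ i, ¬ d ∣ i → u i = 0) (h : ℤ) :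
    |cor u X h| ≤ (X : ℝ) / d := by
  unfold cor
  have h1 : ∀ i ∈ Icc 1 X, |∑ j ∈ Icc 1 X, (if (i : ℤ) - (j : ℤ) = h then u i * u j else 0)| ≤ if d ∣ i then 1 else 0 := by
    intro i _
    by_cases b : d ∣ i
    · rw [if_pos b]
      refine (abs_sum_le_sum_abs _ _).trans ?_
      calc ∑ j ∈ Icc 1 X, |if (i : ℤ) - (j : ℤ) = h then u i * u j else 0|
          ≤ ∑ j ∈ Icc 1 X, (if (i : ℤ) - (j : ℤ) = h then (1 : ℝ) else 0) := by
            refine sum_le_sum fun j _ => ?_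
            split_ifs
            · rw [abs_mul]; exact mul_le_one₀ (hu1 i) (abs_nonneg _) (hu1 j)
            · rw [abs_zero]
        _ = (((Icc 1 X).filter (fun j : ℕ => (i : ℤ) - (j : ℤ) = h)).card : ℝ) := by
            rw [← sum_filter, sum_const, nsmul_eq_mul, mul_one]
        _ ≤ 1 := by
            have : ((Icc 1 X).filter (fun j : ℕ => (i : ℤ) - (j : ℤ) = h)).card ≤ 1 := by
              rw [card_le_one]
              intro a ha b hb
              rw [mem_filter] at ha hb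
              omega
            exact_mod_cast this
    · rw [if_neg b, hu i b]; simp
  refine (abs_sum_le_sum_abs _ _).trans ((sum_le_sum h1).trans ?_)
  rw [← sum_filter, sum_const, nsmul_eq_mul, mul_one]
  have h2 : ((Icc 1 X).filter (fun i => d ∣ i)).card = X / d := by
    have e : Icc 1 X = Ioc 0 X := by
      ext i
      simp only [mem_Icc, mem_Ioc]
      omega
    rw [e]
    exact Nat.Ioc_filter_dvd_card_eq_div X d
  rw [h2]
  exact Nat.cast_div_le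

lemma mul_card (X q : ℕ) (hq : 1 ≤ q) (hqX : q ≤ X) : ((mul X q).card : ℝ) ≤ 3 * X / q := by
  have h1 : (mul X q).card ≤ (Icc (-((X / q : ℕ) : ℤ)) ((X / q : ℕ) : ℤ)).card := by
    have hsub : mul X q ⊆ (Icc (-((X / q : ℕ) : ℤ)) ((X / q : ℕ) : ℤ)).image (fun k => (q : ℤ) * k) := by
      intro h hh
      unfold mul at hh
      rw [mem_filter, mem_Icc] at hh
      obtain ⟨⟨a1, a2⟩, k, hk⟩ := hh
      rw [mem_image]
      refine ⟨k, ?_, hk.symm⟩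
      rw [mem_Icc]
      have hq0 : (0 : ℤ) < q := by exact_mod_cast hq
      have e1 : k ≤ (X : ℤ) / q := by
        rw [Int.le_ediv_iff_mul_le hq0]
        rw [hk] at a2
        linarith [mul_comm (q : ℤ) k]
      have e2 : -k ≤ (X : ℤ) / q := by
        rw [Int.le_ediv_iff_mul_le hq0]
        rw [hk] at a1
        nlinarith
      push_cast
      omega
    exact (card_le_card hsub).trans card_image_le
  have h2 : (Icc (-((X / q : ℕ) : ℤ)) ((X / q : ℕ) : ℤ)).card = 2 * (X / q) + 1 := by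
    rw [Int.card_Icc]; omega
  rw [h2] at h1
  have hqr : (0 : ℝ) < q := by exact_mod_cast hq
  have h3 : ((X / q : ℕ) : ℝ) ≤ (X : ℝ) / q := Nat.cast_div_le
  have h4 : (1 : ℝ) ≤ (X : ℝ) / q := by rw [le_div_iff₀ hqr, one_mul]; exact_mod_cast hqX
  calc ((mul X q).card : ℝ) ≤ ((2 * (X / q) + 1 : ℕ) : ℝ) := by exact_mod_cast h1
    _ = 2 * ((X / q : ℕ) : ℝ) + 1 := by push_cast; ring
    _ ≤ 3 * (X / q) := by linarith
    _ = 3 * X / q := by ring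

lemma SC_triv (u : ℕ → ℝ) (hu1 : ∀ n, |u n| ≤ 1) (X d q : ℕ) (hd : 1 ≤ d) (hu : ∀ i, ¬ d ∣ i → u i = 0)
    (hq : 1 ≤ q) (hqX : q ≤ X) : SC u X q ≤ 3 * (X : ℝ) ^ 3 / (d ^ 2 * q) := by
  unfold SC
  calc ∑ h ∈ mul X q, cor u X h ^ 2 ≤ ∑ h ∈ mul X q, ((X : ℝ) / d) ^ 2 := by
        refine sum_le_sum fun h _ => ?_
        rw [← sq_abs]
        exact pow_le_pow_left₀ (abs_nonneg _) (cor_triv u hu1 X d hd hu h) 2
    _ = (mul X q).card * ((X : ℝ) / d) ^ 2 := by rw [sum_const, nsmul_eq_mul]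
    _ ≤ (3 * X / q) * ((X : ℝ) / d) ^ 2 := mul_le_mul_of_nonneg_right (mul_card X q hq hqX) (by positivity)
    _ = _ := by field_simp

/-! ### correlations and exponential sums -/

lemma nsq (v : ℕ → ℝ) (X : ℕ) (β : ℝ) : (((‖G v X β‖ ^ 2 : ℝ)) : ℂ) =
    ∑ i ∈ Icc 1 X, ∑ j ∈ Icc 1 X, ((v i * v j : ℝ) : ℂ) * ee ((((i : ℤ) - (j : ℤ) : ℤ) : ℝ) * β) := by
  push_cast
  rw [← Complex.mul_conj']
  unfold G
  rw [map_sum, sum_mul_sum]
  refine sum_congr rfl fun i _ => sum_congr rfl fun j _ => ?_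
  rw [map_mul, conj_ee, Complex.conj_ofReal]
  have h1 : (((i : ℝ) - (j : ℝ)) * β) = (i : ℝ) * β + -((j : ℝ) * β) := by ring
  rw [h1, ee_add]
  ring

lemma nsq' (v : ℕ → ℝ) (X : ℕ) (β : ℝ) : (((‖G v X β‖ ^ 2 : ℝ)) : ℂ) =
    ∑ k ∈ Icc 1 X, ∑ l ∈ Icc 1 X, ((v k * v l : ℝ) : ℂ) * ee (-((((k : ℤ) - (l : ℤ) : ℤ) : ℝ) * β)) := by
  rw [nsq, sum_comm]
  refine sum_congr rfl fun k _ => sum_congr rfl fun l _ => ?_
  rw [mul_comm (v l) (v k)]
  congr 2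
  push_cast
  ring

/-- **The correlations at the multiples of `q`.** -/
theorem SC_eq (v : ℕ → ℝ) (X q : ℕ) (hq : 1 ≤ q) :
    ((2 * X + 1 : ℕ) : ℝ) * SC v X q =
      ∑ t ∈ range (2 * X + 1), ‖G v X ((t : ℝ) / ((2 * X + 1 : ℕ) : ℝ))‖ ^ 2 *
        W v X q ((t : ℝ) / ((2 * X + 1 : ℕ) : ℝ)) := by
  set M : ℕ := 2 * X + 1 with hM
  have hM1 : 1 ≤ M := by omega
  have hM0 : (M : ℝ) ≠ 0 := by positivity
  have hqr : (q : ℝ) ≠ 0 := by positivity
  have h1 : ((∑ t ∈ range M, ∑ b ∈ range q, ‖G v X ((t : ℝ) / M)‖ ^ 2 * ‖G v X ((t : ℝ) / M + (b : ℝ) / q)‖ ^ 2 : ℝ) : ℂ) =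
      ((M * q * SC v X q : ℝ) : ℂ) := by
    have e1 : ∀ t ∈ range M, ∀ b ∈ range q,
        ((‖G v X ((t : ℝ) / M)‖ ^ 2 * ‖G v X ((t : ℝ) / M + (b : ℝ) / q)‖ ^ 2 : ℝ) : ℂ) =
        ∑ i ∈ Icc 1 X, ∑ j ∈ Icc 1 X, ∑ k ∈ Icc 1 X, ∑ l ∈ Icc 1 X, ((v i * v j * (v k * v l) : ℝ) : ℂ) *
          (ee ((t : ℝ) * ((((i : ℤ) - (j : ℤ) - ((k : ℤ) - (l : ℤ)) : ℤ) : ℝ) / M)) *
            ee ((b : ℝ) * ((((i : ℤ) - (j : ℤ) : ℤ) : ℝ) / q))) := by
      intro t _ b _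
      rw [Complex.ofReal_mul, mul_comm, nsq v X ((t : ℝ) / M + (b : ℝ) / q), nsq' v X ((t : ℝ) / M), sum_mul]
      refine sum_congr rfl fun i _ => ?_
      rw [sum_mul]
      refine sum_congr rfl fun j _ => ?_
      rw [mul_sum]
      refine sum_congr rfl fun k _ => ?_
      rw [mul_sum]
      refine sum_congr rfl fun l _ => ?_
      have a1 : ee ((((i : ℤ) - (j : ℤ) : ℤ) : ℝ) * ((t : ℝ) / M + (b : ℝ) / q)) * ee (-((((k : ℤ) - (l : ℤ) : ℤ) : ℝ) * ((t : ℝ) / M))) =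
          ee ((t : ℝ) * ((((i : ℤ) - (j : ℤ) - ((k : ℤ) - (l : ℤ)) : ℤ) : ℝ) / M)) *
            ee ((b : ℝ) * ((((i : ℤ) - (j : ℤ) : ℤ) : ℝ) / q)) := by
        rw [← ee_add, ← ee_add]
        congr 1
        push_cast
        ring
      rw [← a1]
      push_cast
      ring
    simp only [Complex.ofReal_sum]
    rw [sum_congr rfl fun t ht => sum_congr rfl (e1 t ht)]
    have e2 : ∀ (F : ℕ → ℕ → ℕ → ℕ → ℕ → ℕ → ℂ),
        ∑ t ∈ range M, ∑ b ∈ range q, ∑ i ∈ Icc 1 X, ∑ j ∈ Icc 1 X, ∑ k ∈ Icc 1 X, ∑ l ∈ Icc 1 X, F t b i j k l =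
        ∑ i ∈ Icc 1 X, ∑ j ∈ Icc 1 X, ∑ k ∈ Icc 1 X, ∑ l ∈ Icc 1 X, ∑ t ∈ range M, ∑ b ∈ range q, F t b i j k l := by
      intro F
      have s1 : ∀ (H : ℕ → ℕ → ℕ → ℂ), ∑ t ∈ range M, ∑ b ∈ range q, ∑ i ∈ Icc 1 X, H t b i =
          ∑ i ∈ Icc 1 X, ∑ t ∈ range M, ∑ b ∈ range q, H t b i := by
        intro H
        rw [sum_congr rfl fun t _ => sum_comm, sum_comm]
      rw [s1]
      refine sum_congr rfl fun i _ => ?_
      rw [s1]
      refine sum_congr rfl fun j _ => ?_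
      rw [s1]
      refine sum_congr rfl fun k _ => ?_
      rw [s1]
    rw [e2]
    unfold SC
    have e3 : ∑ h ∈ mul X q, cor v X h ^ 2 = ∑ h ∈ mul X q, cor v X h * cor v X h :=
      sum_congr rfl fun h _ => sq _
    rw [e3, cor_sum]
    simp only [mul_sum]
    simp only [Complex.ofReal_sum]
    refine sum_congr rfl fun i hi => sum_congr rfl fun j hj => sum_congr rfl fun k hk => sum_congr rfl fun l hl => ?_
    rw [mem_Icc] at hi hj hk hl
    have e5 : ∑ t ∈ range M, ∑ b ∈ range q, ((v i * v j * (v k * v l) : ℝ) : ℂ) *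
          (ee ((t : ℝ) * ((((i : ℤ) - (j : ℤ) - ((k : ℤ) - (l : ℤ)) : ℤ) : ℝ) / M)) *
            ee ((b : ℝ) * ((((i : ℤ) - (j : ℤ) : ℤ) : ℝ) / q))) =
        ((v i * v j * (v k * v l) : ℝ) : ℂ) *
          ((∑ t ∈ range M, ee ((t : ℝ) * ((((i : ℤ) - (j : ℤ) - ((k : ℤ) - (l : ℤ)) : ℤ) : ℝ) / M))) *
            ∑ b ∈ range q, ee ((b : ℝ) * ((((i : ℤ) - (j : ℤ) : ℤ) : ℝ) / q))) := by
      rw [sum_mul_sum, mul_sum]
      exact sum_congr rfl fun t _ => by rw [mul_sum]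
    rw [e5, orth M hM1, orth q hq]
    have e6 : (M : ℤ) ∣ (i : ℤ) - (j : ℤ) - ((k : ℤ) - (l : ℤ)) ↔ (i : ℤ) - (j : ℤ) = (k : ℤ) - (l : ℤ) := by
      constructor
      · intro hd
        have h4 : |(i : ℤ) - (j : ℤ) - ((k : ℤ) - (l : ℤ))| < M := by rw [abs_lt, hM]; constructor <;> push_cast <;> omega
        have := Int.eq_zero_of_abs_lt_dvd hd h4
        omega
      · intro h
        rw [h, sub_self]
        exact dvd_zero _
    have e7 : (if (M : ℤ) ∣ (i : ℤ) - (j : ℤ) - ((k : ℤ) - (l : ℤ)) then (M : ℂ) else 0) =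
        if (i : ℤ) - (j : ℤ) = (k : ℤ) - (l : ℤ) then (M : ℂ) else 0 := if_congr e6 rfl rfl
    rw [e7]
    by_cases a1 : (i : ℤ) - (j : ℤ) = (k : ℤ) - (l : ℤ)
    · by_cases a2 : (q : ℤ) ∣ (i : ℤ) - (j : ℤ)
      · simp only [a1, a2, true_and, if_true]
        rw [a1] at a2
        simp only [a2, if_true]
        push_cast
        ring
      · simp only [a2, and_false, if_false, mul_zero, Complex.ofReal_zero]
    · simp only [a1, false_and, if_false, mul_zero, zero_mul, Complex.ofReal_zero]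
  have h2 : ∑ t ∈ range M, ∑ b ∈ range q, ‖G v X ((t : ℝ) / M)‖ ^ 2 * ‖G v X ((t : ℝ) / M + (b : ℝ) / q)‖ ^ 2 =
      M * q * SC v X q := by exact_mod_cast h1
  have h3 : ∑ t ∈ range M, ‖G v X ((t : ℝ) / M)‖ ^ 2 * W v X q ((t : ℝ) / M) =
      (∑ t ∈ range M, ∑ b ∈ range q, ‖G v X ((t : ℝ) / M)‖ ^ 2 * ‖G v X ((t : ℝ) / M + (b : ℝ) / q)‖ ^ 2) / q := by
    rw [sum_div]
    refine sum_congr rfl fun t _ => ?_
    unfold W
    rw [← mul_sum]
    ring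
  rw [h3, h2]
  field_simp

end Pool.Agent.U325.PB
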