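import Pool.Agent.H373R2.T7.SupLiou

/-!
The exponential sum of the function of Liouville over the multiples of `d`, up to
`d ≤ X exp (-(log X) ^ δ)`, and the sums of `τ(d) ^ C / d`.
-/

set_option autoImplicit false

namespace Pool.Agent.U325.PB

open Finset Filter Topology
open Pool.Agent.H807R2.Dav (ee ee_add)
open Pool.Agent.H373R2.T7 (liR liR_norm sup_liou)

/-- the function of Liouville, real valued -/
noncomputable def lam (n : ℕ) : ℝ := (-1 : ℝ) ^ (ArithmeticFunction.cardFactors n)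

lemma lam_abs (n : ℕ) : |lam n| = 1 := by unfold lam; rw [abs_pow, abs_neg, abs_one, one_pow]

lemma lam_sq (n : ℕ) : lam n * lam n = 1 := by
  have := lam_abs n
  rw [← abs_mul_abs_self, this, one_mul]

lemma liR_eq (n : ℕ) : liR n = (lam n : ℂ) := by unfold liR lam; push_cast; rfl

lemma lam_mul {a b : ℕ} (ha : a ≠ 0) (hb : b ≠ 0) : lam (a * b) = lam a * lam b := by
  unfold lam
  rw [ArithmeticFunction.cardFactors_mul ha hb, pow_add]

lemma dil_sum (X d : ℕ) (hd : 1 ≤ d) (t : ℝ) :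
    ∑ n ∈ Icc 1 X, (((if d ∣ n then lam n else 0 : ℝ)) : ℂ) * ee ((n : ℝ) * t) =
      (lam d : ℂ) * ∑ m ∈ Icc 1 (X / d), liR m * ee ((m : ℝ) * ((d : ℝ) * t)) := by
  have h1 : ∑ n ∈ Icc 1 X, (((if d ∣ n then lam n else 0 : ℝ)) : ℂ) * ee ((n : ℝ) * t) =
      ∑ n ∈ (Icc 1 X).filter (fun n => d ∣ n), (lam n : ℂ) * ee ((n : ℝ) * t) := by
    rw [sum_filter]
    refine sum_congr rfl fun n _ => ?_
    split_ifs
    · rfl
    · push_cast; ring
  rw [h1, mul_sum]
  symm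
  refine sum_bij' (fun m _ => d * m) (fun n _ => n / d) ?_ ?_ ?_ ?_ ?_
  · intro m hm
    rw [mem_Icc] at hm
    rw [mem_filter, mem_Icc]
    refine ⟨⟨Nat.one_le_iff_ne_zero.mpr (Nat.mul_ne_zero (by omega) (by omega)), ?_⟩, Dvd.intro _ rfl⟩
    calc d * m ≤ d * (X / d) := Nat.mul_le_mul_left _ hm.2
      _ ≤ X := Nat.mul_div_le _ _
  · intro n hn
    rw [mem_filter, mem_Icc] at hn
    obtain ⟨⟨h1, h2⟩, c, hc⟩ := hn
    rw [mem_Icc]
    refine ⟨?_, Nat.div_le_div_right h2⟩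
    rw [hc, Nat.mul_div_cancel_left _ (by omega)]
    rcases Nat.eq_zero_or_pos c with h | h
    · rw [h, mul_zero] at hc; omega
    · exact h
  · intro m _
    exact Nat.mul_div_cancel_left _ (by omega)
  · intro n hn
    rw [mem_filter] at hn
    exact Nat.mul_div_cancel' hn.2
  · intro m hm
    rw [mem_Icc] at hm
    rw [lam_mul (by omega) (by omega), liR_eq]
    have h2 : ((d * m : ℕ) : ℝ) * t = (m : ℝ) * ((d : ℝ) * t) := by push_cast; ring
    rw [h2]
    push_cast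
    ring

/-- the bound of Davenport over multiples -/
theorem sup_mult (δ : ℝ) (hδ : 0 < δ) (U : ℕ) : ∃ X₀ : ℕ, ∀ X : ℕ, X₀ ≤ X → ∀ d : ℕ, 1 ≤ d →
    (d : ℝ) ≤ X * Real.exp (-(Real.log X) ^ δ) → ∀ t : ℝ,
    ‖∑ n ∈ Icc 1 X, (((if d ∣ n then lam n else 0 : ℝ)) : ℂ) * ee ((n : ℝ) * t)‖ ≤ X / d / Real.log X ^ U := by
  obtain ⟨U', hU'⟩ := exists_nat_ge ((U + 1) / δ)
  obtain ⟨N₀, hN₀⟩ := sup_liou U'
  have hlog : Tendsto (fun X : ℕ => Real.log X) atTop atTop := Real.tendsto_log_atTop.comp tendsto_natCast_atTop_atTop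
  have hlogδ : Tendsto (fun X : ℕ => (Real.log X) ^ δ) atTop atTop := (tendsto_rpow_atTop hδ).comp hlog
  have hev : ∀ᶠ X : ℕ in atTop, 1 ≤ X ∧ (2 : ℝ) ^ U' + 1 ≤ Real.log X ∧ 2 + 2 * Real.log (N₀ + 1) ≤ (Real.log X) ^ δ := by
    filter_upwards [eventually_ge_atTop 1, hlog.eventually_ge_atTop ((2 : ℝ) ^ U' + 1),
      hlogδ.eventually_ge_atTop (2 + 2 * Real.log (N₀ + 1))] with X h1 h2 h3
    exact ⟨h1, h2, h3⟩
  obtain ⟨X₀, hX₀⟩ := eventually_atTop.1 hev
  refine ⟨X₀, fun X hX d hd hdX t => ?_⟩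
  obtain ⟨hX1, hL, hLδ⟩ := hX₀ X hX
  set L := Real.log X with hLd
  have hXr : (0 : ℝ) < X := by exact_mod_cast hX1
  have hdr : (0 : ℝ) < d := by exact_mod_cast hd
  have hlogN : 0 ≤ Real.log (N₀ + 1) := Real.log_nonneg (by linarith [(Nat.cast_nonneg N₀ : (0:ℝ) ≤ N₀)])
  have p1 : (1 : ℝ) ≤ 2 ^ U' := one_le_pow₀ (by norm_num)
  have hL1 : 1 ≤ L := by linarith
  have hL0 : 0 < L := by linarith
  set x := L ^ δ with hx
  have hx2 : 2 ≤ x := by linarith
  -- the quotient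
  have hq : Real.exp x ≤ (X : ℝ) / d := by
    rw [le_div_iff₀ hdr]
    calc Real.exp x * d ≤ Real.exp x * (X * Real.exp (-x)) := mul_le_mul_of_nonneg_left hdX (Real.exp_pos _).le
      _ = X * (Real.exp x * Real.exp (-x)) := by ring
      _ = X := by rw [← Real.exp_add, add_neg_cancel, Real.exp_zero, mul_one]
  have hY1 : Real.exp x - 1 ≤ ((X / d : ℕ) : ℝ) := by
    have := Nat.lt_floor_add_one ((X : ℝ) / d)
    rw [Nat.floor_div_eq_div] at this
    linarith
  have hY2 : ((X / d : ℕ) : ℝ) ≤ (X : ℝ) / d := Nat.cast_div_le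
  have hexp : Real.exp (x / 2) ≤ Real.exp x - 1 := by
    have e1 : Real.exp x = Real.exp (x / 2) * Real.exp (x / 2) := by rw [← Real.exp_add]; ring_nf
    have e2 : 2 ≤ Real.exp (x / 2) := by
      have := Real.add_one_le_exp (x / 2)
      linarith
    rw [e1]; nlinarith
  have hY3 : Real.exp (x / 2) ≤ ((X / d : ℕ) : ℝ) := hexp.trans hY1
  have hYN : N₀ ≤ X / d := by
    have h1 : Real.log (N₀ + 1) ≤ x / 2 := by linarith
    have h2 : (N₀ : ℝ) + 1 ≤ Real.exp (x / 2) := by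
      have := Real.exp_le_exp.2 h1
      rwa [Real.exp_log (by linarith [(Nat.cast_nonneg N₀ : (0:ℝ) ≤ N₀)])] at this
    have h3 : (N₀ : ℝ) ≤ ((X / d : ℕ) : ℝ) := by linarith
    exact_mod_cast h3
  have hYlog : x / 2 ≤ Real.log ((X / d : ℕ) : ℝ) := by
    have := Real.log_le_log (Real.exp_pos _) hY3
    rwa [Real.log_exp] at this
  have hpow : L ^ U ≤ Real.log ((X / d : ℕ) : ℝ) ^ U' := by
    have h1 : (x / 2) ^ U' ≤ Real.log ((X / d : ℕ) : ℝ) ^ U' := pow_le_pow_left₀ (by linarith) hYlog U'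
    refine le_trans ?_ h1
    rw [div_pow, le_div_iff₀ (by positivity)]
    have h2 : L ^ (U + 1) ≤ x ^ U' := by
      rw [hx, ← Real.rpow_natCast (L ^ δ) U', ← Real.rpow_mul hL0.le, ← Real.rpow_natCast L (U + 1)]
      refine Real.rpow_le_rpow_of_exponent_le hL1 ?_
      rw [div_le_iff₀ hδ] at hU'
      push_cast
      linarith
    calc L ^ U * 2 ^ U' ≤ L ^ U * L := mul_le_mul_of_nonneg_left (by linarith) (by positivity)
      _ = L ^ (U + 1) := by ring
      _ ≤ x ^ U' := h2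
  rw [dil_sum X d hd t, norm_mul]
  have e1 : ‖(lam d : ℂ)‖ = 1 := by rw [Complex.norm_real, Real.norm_eq_abs, lam_abs]
  rw [e1, one_mul]
  refine (hN₀ (X / d) hYN _).trans ?_
  exact div_le_div₀ (by positivity) hY2 (by positivity) hpow

/-! ### divisor sums -/

/-- `∑_{d ≤ X} τ(d) ^ C / d` -/
noncomputable def tsum (C X : ℕ) : ℝ := ∑ d ∈ Icc 1 X, (d.divisors.card : ℝ) ^ C / d

lemma tsum_nonneg (C X : ℕ) : 0 ≤ tsum C X := sum_nonneg fun _ _ => by positivity

lemma card_divisors_mul_le (a b : ℕ) : (a * b).divisors.card ≤ a.divisors.card * b.divisors.card := by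
  rw [Nat.divisors_mul]
  exact Finset.card_mul_le

lemma tsum_succ (C X : ℕ) : tsum (C + 1) X ≤ tsum C X ^ 2 := by
  unfold tsum
  have h1 : ∀ n ∈ Icc 1 X, (n.divisors.card : ℝ) ^ (C + 1) / n =
      ∑ i ∈ n.divisorsAntidiagonal, ((i.1 * i.2).divisors.card : ℝ) ^ C / ((i.1 : ℝ) * i.2) := by
    intro n _
    have e1 : ∀ i ∈ n.divisorsAntidiagonal, ((i.1 * i.2).divisors.card : ℝ) ^ C / ((i.1 : ℝ) * i.2) =
        (n.divisors.card : ℝ) ^ C / n := by
      intro i hi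
      have := (Nat.mem_divisorsAntidiagonal.1 hi).1
      rw [this, ← Nat.cast_mul, this]
    rw [sum_congr rfl e1, sum_const, nsmul_eq_mul]
    have e2 : n.divisorsAntidiagonal.card = n.divisors.card := by
      rw [← Nat.map_div_right_divisors, card_map]
    rw [e2]; ring
  rw [sum_congr rfl h1, sq, sum_mul_sum, ← sum_product']
  have h2 : ∑ n ∈ Icc 1 X, ∑ i ∈ n.divisorsAntidiagonal, ((i.1 * i.2).divisors.card : ℝ) ^ C / ((i.1 : ℝ) * i.2) ≤
      ∑ i ∈ Icc 1 X ×ˢ Icc 1 X, ((i.1 * i.2).divisors.card : ℝ) ^ C / ((i.1 : ℝ) * i.2) := by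
    rw [← sum_biUnion]
    · refine sum_le_sum_of_subset_of_nonneg ?_ fun _ _ _ => by positivity
      intro i hi
      rw [mem_biUnion] at hi
      obtain ⟨n, hn, hi⟩ := hi
      rw [Nat.mem_divisorsAntidiagonal] at hi
      rw [mem_Icc] at hn
      rw [mem_product, mem_Icc, mem_Icc]
      have h3 : i.1 ∣ n := ⟨i.2, hi.1.symm⟩
      have h4 : i.2 ∣ n := ⟨i.1, by rw [mul_comm]; exact hi.1.symm⟩
      have := Nat.le_of_dvd (by omega) h3
      have := Nat.le_of_dvd (by omega) h4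
      have := Nat.pos_of_dvd_of_pos h3 (by omega)
      have := Nat.pos_of_dvd_of_pos h4 (by omega)
      omega
    · intro a _ b _ hab
      rw [Function.onFun, disjoint_left]
      intro i hi hj
      rw [Nat.mem_divisorsAntidiagonal] at hi hj
      exact hab (hi.1.symm.trans hj.1)
  refine h2.trans (sum_le_sum fun i hi => ?_)
  rw [mem_product, mem_Icc, mem_Icc] at hi
  have h5 : (((i.1 * i.2).divisors.card : ℕ) : ℝ) ≤ (i.1.divisors.card : ℝ) * i.2.divisors.card := by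
    exact_mod_cast card_divisors_mul_le i.1 i.2
  calc ((i.1 * i.2).divisors.card : ℝ) ^ C / ((i.1 : ℝ) * i.2)
      ≤ ((i.1.divisors.card : ℝ) * i.2.divisors.card) ^ C / ((i.1 : ℝ) * i.2) := by gcongr
    _ = (i.1.divisors.card : ℝ) ^ C / i.1 * ((i.2.divisors.card : ℝ) ^ C / i.2) := by
        rw [mul_pow, mul_div_mul_comm]

lemma tsum_zero (X : ℕ) : tsum 0 X ≤ 1 + Real.log X := by
  unfold tsum
  simp only [pow_zero]
  have h := harmonic_le_one_add_log X
  refine le_trans (le_of_eq ?_) h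
  rw [harmonic_eq_sum_Icc]
  push_cast
  exact sum_congr rfl fun _ _ => by rw [one_div]

lemma tsum_le (C X : ℕ) (hX : 1 ≤ X) : tsum C X ≤ (1 + Real.log X) ^ (2 ^ C) := by
  have hL : 0 ≤ Real.log X := Real.log_nonneg (by exact_mod_cast hX)
  induction C with
  | zero => simpa using tsum_zero X
  | succ C ih =>
    calc tsum (C + 1) X ≤ tsum C X ^ 2 := tsum_succ C X
      _ ≤ ((1 + Real.log X) ^ (2 ^ C)) ^ 2 := pow_le_pow_left₀ (tsum_nonneg C X) ih 2
      _ = (1 + Real.log X) ^ (2 ^ (C + 1)) := by rw [← pow_mul, pow_succ]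

end Pool.Agent.U325.PB
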