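import Pool.Agent.U325.PB.Quad
import Pool.Agent.U325.PB.Sup

/-!
The sums of `a(m) λ(m) λ(n)` over `m + n = N`, `d ∣ m`, `e ∣ n`, on average over `N`, `d`, `e`.
-/

set_option autoImplicit false

namespace Pool.Agent.U325.PB

open Finset Filter Topology
open Pool.Agent.H807R2.Dav (ee ee_add norm_ee ee_add_int)
open Pool.Agent.H373R2.T7 (parseval_Icc liR)

/-- the function of Liouville on the multiples of `e` -/
noncomputable def vE (e n : ℕ) : ℝ := if e ∣ n then lam n else 0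

/-- `a(d, m) λ(m)` on the multiples of `d` -/
noncomputable def uD (a : ℕ → ℕ → ℝ) (d m : ℕ) : ℝ := if d ∣ m then a d m * lam m else 0

lemma vE_abs (e n : ℕ) : |vE e n| ≤ 1 := by
  unfold vE
  split_ifs
  · rw [lam_abs]
  · simp

lemma uD_abs (a : ℕ → ℕ → ℝ) (ha : ∀ d n, |a d n| ≤ 1) (d m : ℕ) : |uD a d m| ≤ 1 := by
  unfold uD
  split_ifs
  · rw [abs_mul, lam_abs, mul_one]; exact ha d m
  · simp

lemma G_vE (e X : ℕ) (he : 1 ≤ e) (β : ℝ) : ‖G (vE e) X β‖ = ‖G lam (X / e) ((e : ℝ) * β)‖ := by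
  have h1 : G (vE e) X β = (lam e : ℂ) * G lam (X / e) ((e : ℝ) * β) := by
    unfold G vE
    rw [dil_sum X e he β]
    congr 1
    exact sum_congr rfl fun m _ => by rw [liR_eq]
  rw [h1, norm_mul, Complex.norm_real, Real.norm_eq_abs, lam_abs, one_mul]

lemma G_per (f : ℕ → ℝ) (Y : ℕ) (β : ℝ) (n : ℕ) : G f Y (β + n) = G f Y β := by
  unfold G
  refine sum_congr rfl fun l _ => ?_
  have h1 : (l : ℝ) * (β + n) = (l : ℝ) * β + (((l * n : ℕ) : ℤ) : ℝ) := by push_cast; ring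
  rw [h1, ee_add_int]

lemma per_sum (g : ℝ → ℝ) (x : ℝ) (hg : ∀ (y : ℝ) (n : ℕ), g (y + n) = g y) (e d : ℕ) (hd : 1 ≤ d) :
    ∑ b ∈ range (e * d), g (x + (b : ℝ) / d) = e * ∑ b ∈ range d, g (x + (b : ℝ) / d) := by
  have hdr : (d : ℝ) ≠ 0 := by positivity
  induction e with
  | zero => simp
  | succ e ih =>
    rw [Nat.succ_mul, sum_range_add, ih]
    have h1 : ∀ b ∈ range d, g (x + ((e * d + b : ℕ) : ℝ) / d) = g (x + (b : ℝ) / d) := by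
      intro b _
      have : x + ((e * d + b : ℕ) : ℝ) / d = (x + (b : ℝ) / d) + (e : ℝ) := by
        push_cast
        field_simp
        ring
      rw [this, hg]
    rw [sum_congr rfl h1]
    push_cast
    ring

lemma W_vE (e X d : ℕ) (he : 1 ≤ e) (hd : 1 ≤ d) (β : ℝ) :
    W (vE e) X (Nat.lcm d e) β = W lam (X / e) (d / Nat.gcd d e) ((e : ℝ) * β) := by
  set d' := d / Nat.gcd d e with hd'
  have hg : 0 < Nat.gcd d e := Nat.gcd_pos_of_pos_left _ hd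
  have hd'1 : 1 ≤ d' := Nat.div_pos (Nat.le_of_dvd hd (Nat.gcd_dvd_left d e)) hg
  have hlcm : Nat.lcm d e = e * d' := by
    rw [hd', Nat.lcm, mul_comm d e, Nat.mul_div_assoc _ (Nat.gcd_dvd_left d e)]
  unfold W
  rw [hlcm]
  have her : (e : ℝ) ≠ 0 := by positivity
  have hdr : (d' : ℝ) ≠ 0 := by positivity
  have h1 : ∑ b ∈ range (e * d'), ‖G (vE e) X (β + (b : ℝ) / ((e * d' : ℕ) : ℝ))‖ ^ 2 =
      ∑ b ∈ range (e * d'), ‖G lam (X / e) ((e : ℝ) * β + (b : ℝ) / d')‖ ^ 2 := by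
    refine sum_congr rfl fun b _ => ?_
    rw [G_vE e X he]
    congr 3
    push_cast
    field_simp
  rw [h1, per_sum (fun y => ‖G lam (X / e) y‖ ^ 2) ((e : ℝ) * β) (fun y n => by rw [G_per]) e d' hd'1]
  push_cast
  field_simp

/-- the sum over `d` -/
lemma sum_W (e Y Q : ℕ) (he : 1 ≤ e) (γ : ℝ) :
    ∑ d ∈ Icc 1 Q, W lam Y (d / Nat.gcd d e) γ ≤ e.divisors.card * ∑ d ∈ Icc 1 Q, W lam Y d γ := by
  have h1 : ∑ d ∈ Icc 1 Q, W lam Y (d / Nat.gcd d e) γ =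
      ∑ x ∈ (Icc 1 Q).image (fun d => (Nat.gcd d e, d / Nat.gcd d e)), W lam Y x.2 γ := by
    rw [sum_image]
    intro a ha b hb hab
    rw [mem_coe, mem_Icc] at ha hb
    simp only [Prod.mk.injEq] at hab
    calc a = Nat.gcd a e * (a / Nat.gcd a e) := (Nat.mul_div_cancel' (Nat.gcd_dvd_left a e)).symm
      _ = Nat.gcd b e * (b / Nat.gcd b e) := by rw [hab.1, hab.2] at *
      _ = b := Nat.mul_div_cancel' (Nat.gcd_dvd_left b e)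
  rw [h1]
  have hsub : (Icc 1 Q).image (fun d => (Nat.gcd d e, d / Nat.gcd d e)) ⊆ e.divisors ×ˢ Icc 1 Q := by
    intro x hx
    rw [mem_image] at hx
    obtain ⟨d, hd, rfl⟩ := hx
    rw [mem_Icc] at hd
    rw [mem_product, mem_Icc]
    have hg : 0 < Nat.gcd d e := Nat.gcd_pos_of_pos_left _ hd.1
    refine ⟨Nat.mem_divisors.2 ⟨Nat.gcd_dvd_right d e, by omega⟩, ?_, ?_⟩
    · exact Nat.div_pos (Nat.le_of_dvd (by omega) (Nat.gcd_dvd_left d e)) hg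
    · exact (Nat.div_le_self _ _).trans hd.2
  refine (sum_le_sum_of_subset_of_nonneg hsub fun _ _ _ => W_nonneg _ _ _ _).trans (le_of_eq ?_)
  rw [sum_product]
  dsimp only
  rw [sum_const, nsmul_eq_mul]

/-- Parseval -/
lemma pars (v : ℕ → ℝ) (X : ℕ) : ∑ t ∈ range (2 * X + 1), ‖G v X ((t : ℝ) / ((2 * X + 1 : ℕ) : ℝ))‖ ^ 2 =
    ((2 * X + 1 : ℕ) : ℝ) * ∑ n ∈ Icc 1 X, v n ^ 2 := by
  have h := parseval_Icc X (2 * X + 1) (by omega) (by omega) (fun n => (v n : ℂ)) 1 (Or.inl rfl)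
  have e1 : ∀ t ∈ range (2 * X + 1), ‖G v X ((t : ℝ) / ((2 * X + 1 : ℕ) : ℝ))‖ ^ 2 =
      ‖∑ a ∈ Icc 1 X, (v a : ℂ) * ee ((t : ℝ) * (((1 * (a : ℤ) : ℤ) : ℝ) / ((2 * X + 1 : ℕ) : ℝ)))‖ ^ 2 := by
    intro t _
    unfold G
    congr 2
    refine sum_congr rfl fun l _ => ?_
    congr 2
    push_cast
    ring
  rw [sum_congr rfl e1, h]
  congr 1
  refine sum_congr rfl fun n _ => ?_
  rw [Complex.norm_real, Real.norm_eq_abs, sq_abs]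

lemma sum_vE (e X : ℕ) : ∑ n ∈ Icc 1 X, vE e n ^ 2 ≤ (X : ℝ) / e := by
  have h1 : ∑ n ∈ Icc 1 X, vE e n ^ 2 = (((Icc 1 X).filter (fun n => e ∣ n)).card : ℝ) := by
    rw [card_filter]
    push_cast
    refine sum_congr rfl fun n _ => ?_
    unfold vE
    split_ifs
    · rw [sq, lam_sq]
    · simp
  have h2 : ((Icc 1 X).filter (fun i => e ∣ i)).card = X / e := by
    have e : Icc 1 X = Ioc 0 X := by
      ext i
      simp only [mem_Icc, mem_Ioc]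
      omega
    rw [e]
    exact Nat.Ioc_filter_dvd_card_eq_div X _
  rw [h1, h2]
  exact Nat.cast_div_le

/-- the sum of the correlations over `d`, for one `e` -/
lemma sum_SC (e X Q : ℕ) (he : 1 ≤ e) (B : ℝ) (hB : ∀ γ : ℝ, ∑ d ∈ Icc 1 Q, W lam (X / e) d γ ≤ B) :
    ∑ d ∈ Icc 1 Q, SC (vE e) X (Nat.lcm d e) ≤ (X : ℝ) / e * (e.divisors.card * B) := by
  have hM : (0 : ℝ) < ((2 * X + 1 : ℕ) : ℝ) := by positivity
  have hB0 : 0 ≤ B := (sum_nonneg fun _ _ => W_nonneg _ _ _ _).trans (hB 0)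
  refine le_of_mul_le_mul_left ?_ hM
  rw [mul_sum]
  calc ∑ d ∈ Icc 1 Q, ((2 * X + 1 : ℕ) : ℝ) * SC (vE e) X (Nat.lcm d e)
      = ∑ d ∈ Icc 1 Q, ∑ t ∈ range (2 * X + 1), ‖G (vE e) X ((t : ℝ) / ((2 * X + 1 : ℕ) : ℝ))‖ ^ 2 *
          W lam (X / e) (d / Nat.gcd d e) ((e : ℝ) * ((t : ℝ) / ((2 * X + 1 : ℕ) : ℝ))) := by
        refine sum_congr rfl fun d hd => ?_
        rw [mem_Icc] at hd
        rw [SC_eq (vE e) X (Nat.lcm d e) (Nat.lcm_pos (by omega) (by omega))]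
        exact sum_congr rfl fun t _ => by rw [W_vE e X d he hd.1]
    _ = ∑ t ∈ range (2 * X + 1), ‖G (vE e) X ((t : ℝ) / ((2 * X + 1 : ℕ) : ℝ))‖ ^ 2 *
          ∑ d ∈ Icc 1 Q, W lam (X / e) (d / Nat.gcd d e) ((e : ℝ) * ((t : ℝ) / ((2 * X + 1 : ℕ) : ℝ))) := by
        rw [sum_comm]
        exact sum_congr rfl fun t _ => by rw [mul_sum]
    _ ≤ ∑ t ∈ range (2 * X + 1), ‖G (vE e) X ((t : ℝ) / ((2 * X + 1 : ℕ) : ℝ))‖ ^ 2 * (e.divisors.card * B) := by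
        refine sum_le_sum fun t _ => mul_le_mul_of_nonneg_left ?_ (by positivity)
        exact (sum_W e (X / e) Q he _).trans (mul_le_mul_of_nonneg_left (hB _) (by positivity))
    _ = ((2 * X + 1 : ℕ) : ℝ) * (∑ n ∈ Icc 1 X, vE e n ^ 2) * (e.divisors.card * B) := by
        rw [← sum_mul, pars]
    _ ≤ ((2 * X + 1 : ℕ) : ℝ) * ((X : ℝ) / e) * (e.divisors.card * B) := by
        refine mul_le_mul_of_nonneg_right (mul_le_mul_of_nonneg_left (sum_vE e X) hM.le) (by positivity)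
    _ = _ := by ring

/-- the pairs of the level `Z` -/
def prs (Z : ℕ) : Finset (ℕ × ℕ) := (Icc 1 Z ×ˢ Icc 1 Z).filter (fun p => p.1 * p.2 ≤ Z)

lemma mem_prs {Z : ℕ} {p : ℕ × ℕ} : p ∈ prs Z ↔ 1 ≤ p.1 ∧ 1 ≤ p.2 ∧ p.1 * p.2 ≤ Z := by
  unfold prs
  rw [mem_filter, mem_product, mem_Icc, mem_Icc]
  constructor
  · rintro ⟨⟨⟨a, _⟩, c, _⟩, d⟩; exact ⟨a, c, d⟩
  · rintro ⟨a, b, c⟩
    exact ⟨⟨⟨a, le_trans (Nat.le_mul_of_pos_right _ b) c⟩, b, le_trans (Nat.le_mul_of_pos_left _ a) c⟩, c⟩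

/-- the sum over the pairs of `1 / lcm` -/
lemma sum_lcm (X Z : ℕ) (hZ : Z ≤ X) : ∑ p ∈ prs Z, 1 / (Nat.lcm p.1 p.2 : ℝ) ≤ tsum 2 X := by
  have hmap : ∀ p ∈ prs Z, Nat.lcm p.1 p.2 ∈ Icc 1 X := by
    intro p hp
    rw [mem_prs] at hp
    rw [mem_Icc]
    refine ⟨Nat.lcm_pos hp.1 hp.2.1, ?_⟩
    have : Nat.lcm p.1 p.2 ≤ p.1 * p.2 := Nat.le_of_dvd (Nat.mul_pos hp.1 hp.2.1) (Nat.lcm_dvd_mul _ _)
    omega
  rw [← sum_fiberwise_of_maps_to hmap]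
  unfold tsum
  refine sum_le_sum fun q hq => ?_
  rw [mem_Icc] at hq
  have h1 : ∀ p ∈ (prs Z).filter (fun p => Nat.lcm p.1 p.2 = q), 1 / (Nat.lcm p.1 p.2 : ℝ) = 1 / (q : ℝ) := by
    intro p hp
    rw [mem_filter] at hp
    rw [hp.2]
  rw [sum_congr rfl h1, sum_const, nsmul_eq_mul]
  have h2 : ((prs Z).filter (fun p => Nat.lcm p.1 p.2 = q)).card ≤ q.divisors.card ^ 2 := by
    rw [sq, ← card_product]
    refine card_le_card fun p hp => ?_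
    rw [mem_filter] at hp
    rw [mem_product, Nat.mem_divisors, Nat.mem_divisors]
    refine ⟨⟨?_, by omega⟩, ?_, by omega⟩
    · rw [← hp.2]; exact Nat.dvd_lcm_left _ _
    · rw [← hp.2]; exact Nat.dvd_lcm_right _ _
  rw [mul_one_div]
  refine div_le_div_of_nonneg_right ?_ (by positivity)
  exact_mod_cast h2

/-- the sum over one line -/
noncomputable def T (a : ℕ → ℕ → ℝ) (p : ℕ × ℕ) (N : ℕ) : ℝ := ∑ m ∈ Ico 1 N, uD a p.1 m * vE p.2 (N - m)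

/-- the mean square over the lines, for one pair -/
lemma R_sq (a : ℕ → ℕ → ℝ) (ha : ∀ d n, |a d n| ≤ 1) (X Z : ℕ) (hZ : Z ≤ X) (p : ℕ × ℕ) (hp : p ∈ prs Z) :
    ((p.1 : ℝ) * p.2 * ∑ N ∈ range (X + 1), T a p N ^ 2) ^ 2 ≤
      (3 * (X : ℝ) ^ 3 * (1 / (Nat.lcm p.1 p.2 : ℝ))) * ((p.2 : ℝ) ^ 2 * SC (vE p.2) X (Nat.lcm p.1 p.2)) := by
  rw [mem_prs] at hp
  obtain ⟨h1, h2, h3⟩ := hp
  have hl1 : 1 ≤ Nat.lcm p.1 p.2 := Nat.lcm_pos h1 h2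
  have hlX : Nat.lcm p.1 p.2 ≤ X := by
    have : Nat.lcm p.1 p.2 ≤ p.1 * p.2 := Nat.le_of_dvd (Nat.mul_pos h1 h2) (Nat.lcm_dvd_mul _ _)
    omega
  have hu : ∀ i, ¬ p.1 ∣ i → uD a p.1 i = 0 := fun i hi => by unfold uD; rw [if_neg hi]
  have hv : ∀ i, ¬ p.2 ∣ i → vE p.2 i = 0 := fun i hi => by unfold vE; rw [if_neg hi]
  have hR : ∑ N ∈ range (X + 1), T a p N ^ 2 ≤ quad (uD a p.1) (vE p.2) X := line_quad X _ _
  have hR0 : 0 ≤ ∑ N ∈ range (X + 1), T a p N ^ 2 := sum_nonneg fun _ _ => sq_nonneg _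
  have hR2 : (∑ N ∈ range (X + 1), T a p N ^ 2) ^ 2 ≤
      (3 * (X : ℝ) ^ 3 / ((p.1 : ℝ) ^ 2 * (Nat.lcm p.1 p.2 : ℕ))) * SC (vE p.2) X (Nat.lcm p.1 p.2) :=
    ((pow_le_pow_left₀ hR0 hR 2).trans (quad_sq _ _ X p.1 p.2 hu hv)).trans
      (mul_le_mul_of_nonneg_right (SC_triv _ (uD_abs a ha p.1) X p.1 _ h1 hu hl1 hlX) (SC_nonneg _ _ _))
  have hp1 : (p.1 : ℝ) ≠ 0 := by positivity
  have hl0 : ((Nat.lcm p.1 p.2 : ℕ) : ℝ) ≠ 0 := by positivity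
  calc ((p.1 : ℝ) * p.2 * ∑ N ∈ range (X + 1), T a p N ^ 2) ^ 2
      = ((p.1 : ℝ) * p.2) ^ 2 * (∑ N ∈ range (X + 1), T a p N ^ 2) ^ 2 := by ring
    _ ≤ ((p.1 : ℝ) * p.2) ^ 2 * ((3 * (X : ℝ) ^ 3 / ((p.1 : ℝ) ^ 2 * (Nat.lcm p.1 p.2 : ℕ))) * SC (vE p.2) X (Nat.lcm p.1 p.2)) :=
        mul_le_mul_of_nonneg_left hR2 (by positivity)
    _ = _ := by field_simp

end Pool.Agent.U325.PB
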